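import Pool.Agent.FF79.NecD

/-! FF79/NecE38: proof of `cycle_data` (the tiles around a ridge, for a sequence of flags). -/

set_option autoImplicit false

open Set Metric
open scoped RealInnerProductSpace

namespace Pool.FF79

open Pool.FF24

variable {E : Type*} [NormedAddCommGroup E] [InnerProductSpace ℝ E] {P : HPoly E} (g : Glue P)

/-- the labels along a sequence of flags -/
noncomputable def lab38 (a : ℕ → E × E) : ℕ → ℝ × E
  | 0 => (1, 0)
  | r + 1 => g.nb (a r).2 (lab38 a r)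

theorem cross_mem38 {a b : E × E} (h : g.Cross a b) : a.1 ∈ P.N ∧ a.2 ∈ P.N := by
  obtain ⟨-, -, -, y, -, hy, -⟩ := h
  have h1 : a.1 ∈ P.act y := by rw [hy]; simp
  have h2 : a.2 ∈ P.act y := by rw [hy]; simp
  exact ⟨h1.1, h2.1⟩

theorem cycle_data38 (a : ℕ → E × E) (ha : ∀ r, g.Cross (a r) (a (r + 1))) :
    ∃ (y₀ : E) (D : ℕ → ℝ × E) (e : ℕ → E), y₀ ∈ P.body ∧ D 0 = (1, 0) ∧
      (∀ r, D (r + 1) = g.nb (a r).2 (D r)) ∧ (∀ r, g.Orb (D r)) ∧
      (∀ r, crd (D r) y₀ ∈ P.body ∧ P.act (crd (D r) y₀) = {(a r).1, (a r).2}) ∧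
      (∀ r, e r = -((D r).1 • (a r).1)) ∧ (∀ r, e (r + 1) = (D r).1 • (a r).2) ∧
      (∀ r, ∃ α β : ℝ, 0 < α ∧ e (r + 2) = -(α • e r) + β • e (r + 1)) ∧
      LinearIndependent ℝ ![e 0, e 1] := by
  obtain ⟨hne0, -, -, y₀, hy₀, hact₀, -⟩ := ha 0
  set D : ℕ → ℝ × E := lab38 g a with hD
  have hD0 : D 0 = (1, 0) := rfl
  have hDs : ∀ r, D (r + 1) = g.nb (a r).2 (D r) := fun r => rfl
  have hOrb : ∀ r, g.Orb (D r) := by
    intro r
    induction r with
    | zero => exact Glue.Orb.base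
    | succ r ih => exact ih.step (cross_mem38 g (ha r)).2
  have hcrd : ∀ r, crd (D r) y₀ ∈ P.body ∧ P.act (crd (D r) y₀) = {(a r).1, (a r).2} := by
    intro r
    induction r with
    | zero =>
      have h1 : crd (D 0) y₀ = y₀ := by
        rw [hD0]
        simp [crd]
      rw [h1]
      exact ⟨hy₀, hact₀⟩
    | succ r ih =>
      have h1 : crd (D (r + 1)) y₀ = g.j (a r).2 (crd (D r) y₀) := by
        rw [hDs r]
        exact crd_nb g (Orb.sign g (hOrb r)) _ _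
      rw [h1]
      have h2 : (a r).2 ∈ P.act (crd (D r) y₀) := by rw [ih.2]; simp
      exact ⟨(j_mem g h2.1 ⟨ih.1, h2.2⟩).1, cross_pt g (ha r) ih.1 ih.2⟩
  have he1 : ∀ r, -((D (r + 1)).1 • (a (r + 1)).1) = (D r).1 • (a r).2 := by
    intro r
    have h1 : (a (r + 1)).1 = g.star (a r).2 := (ha r).2.2.1
    rw [h1, hDs r]
    by_cases hI : (a r).2 ∈ g.I
    · simp only [Glue.nb, Glue.star, if_pos hI]
      rw [neg_smul, neg_neg]
    · simp only [Glue.nb, Glue.star, if_neg hI]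
      rw [smul_neg, neg_neg]
  refine ⟨y₀, D, fun r => -((D r).1 • (a r).1), hy₀, hD0, hDs, hOrb, hcrd, fun r => rfl,
    fun r => he1 r, ?_, ?_⟩
  · intro r
    obtain ⟨α, β, hα, h⟩ := cross_comb g (ha r)
    refine ⟨α, β, hα, ?_⟩
    have h2 : -((D (r + 2)).1 • (a (r + 2)).1) = (D (r + 1)).1 • (a (r + 1)).2 := he1 (r + 1)
    simp only
    rw [h2, he1 r, hDs r]
    rcases h with ⟨hI, hb⟩ | ⟨hI, hb⟩
    · rw [hb]
      simp only [Glue.nb, if_pos hI]
      module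
    · rw [hb]
      simp only [Glue.nb, if_neg hI]
      module
  · have h1 : (a 0).1 ∈ P.act y₀ := by rw [hact₀]; simp
    have h2 : (a 0).2 ∈ P.act y₀ := by rw [hact₀]; simp
    have h3 := act_pair hy₀ h1 h2 hne0
    rw [LinearIndependent.pair_iff] at h3 ⊢
    intro s t hst
    simp only at hst
    rw [he1 0, hD0] at hst
    have h4 := h3 (-s) t (by
      rw [← hst]
      module)
    exact ⟨neg_eq_zero.1 h4.1, h4.2⟩

end Pool.FF79
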