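import Pool.Agent.FF24.Defs

/-! FF79/NecES48: proof of `wedge_interior`. -/

set_option autoImplicit false

open Set Metric
open scoped RealInnerProductSpace

namespace Pool.FF79

open Pool.FF24

variable {E : Type*} [NormedAddCommGroup E] [InnerProductSpace ℝ E] {P : HPoly E}

theorem X_crd48 {τ : ℝ × E} (hτ : τ.1 = 1 ∨ τ.1 = -1) (q : E) : X τ (crd τ q) = q := by
  unfold X crd
  rw [smul_smul]
  have h : τ.1 * τ.1 = 1 := by
    rcases hτ with h | h <;> rw [h] <;> norm_num
  rw [h, one_smul]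
  abel

/-- a point with strict inequalities in own coordinates is an interior point of the tile -/
theorem mem_interior48 {τ : ℝ × E} (hτ : τ.1 = 1 ∨ τ.1 = -1) {q : E}
    (hq : ∀ w ∈ P.N, ⟪w, crd τ q⟫ < P.h w) : q ∈ interior (X τ '' P.body) := by
  have hop : IsOpen {q : E | ∀ w ∈ P.N, ⟪w, crd τ q⟫ < P.h w} := by
    have h1 : {q : E | ∀ w ∈ P.N, ⟪w, crd τ q⟫ < P.h w} =
        ⋂ w ∈ P.N, {q : E | ⟪w, crd τ q⟫ < P.h w} := by
      ext q
      simp
    rw [h1]
    refine isOpen_biInter_finset fun w _ => isOpen_lt ?_ continuous_const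
    unfold crd
    fun_prop
  refine interior_maximal ?_ hop hq
  intro z hz
  exact ⟨crd τ z, fun w hw => (hz w hw).le, X_crd48 hτ z⟩

theorem wedge_interior48 {τ : ℝ × E} (hτ : τ.1 = 1 ∨ τ.1 = -1) {p u v x : E}
    (hp : crd τ p ∈ P.body) (hact : P.act (crd τ p) = {u, v}) (h1 : ⟪τ.1 • u, x⟫ < 0)
    (h2 : ⟪τ.1 • v, x⟫ < 0) : ∃ η₀ > 0, ∀ η : ℝ, 0 < η → η < η₀ →
      p + η • x ∈ interior (X τ '' P.body) := by
  classical
  obtain ⟨y, hy⟩ : ∃ y, y = crd τ p := ⟨_, rfl⟩
  rw [← hy] at hp hact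
  have habs : |τ.1| = 1 := by
    rcases hτ with h | h <;> rw [h] <;> norm_num
  -- the distance to the inactive walls
  have hδ : ∃ δ > 0, ∀ w ∈ P.N, w ∉ P.act y → δ ≤ P.h w - ⟪w, y⟫ := by
    have hgen : ∀ S : Finset E, S ⊆ P.N → ∃ δ > 0, ∀ w ∈ S, w ∉ P.act y → δ ≤ P.h w - ⟪w, y⟫ := by
      intro S
      induction S using Finset.induction_on with
      | empty => exact fun _ => ⟨1, one_pos, fun w hw => absurd hw (Finset.notMem_empty w)⟩
      | insert a S _ ih =>
        intro hS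
        obtain ⟨δ, hδ, h3⟩ := ih fun w hw => hS (Finset.mem_insert_of_mem hw)
        have haN : a ∈ P.N := hS (Finset.mem_insert_self a S)
        by_cases ha : a ∈ P.act y
        · refine ⟨δ, hδ, fun w hw hw' => ?_⟩
          rcases Finset.mem_insert.1 hw with rfl | hw
          · exact absurd ha hw'
          · exact h3 w hw hw'
        · have h4 : ⟪a, y⟫ < P.h a := by
            refine lt_of_le_of_ne (hp a haN) fun h => ha ⟨haN, h⟩
          refine ⟨min δ (P.h a - ⟪a, y⟫), lt_min hδ (by linarith), fun w hw hw' => ?_⟩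
          rcases Finset.mem_insert.1 hw with rfl | hw
          · exact min_le_right _ _
          · exact (min_le_left _ _).trans (h3 w hw hw')
    exact hgen P.N subset_rfl
  obtain ⟨δ, hδ0, hδ⟩ := hδ
  have hx0 : 0 < ‖x‖ + 1 := by positivity
  refine ⟨δ / (‖x‖ + 1), by positivity, fun η hη hη' => mem_interior48 hτ fun w hw => ?_⟩
  have e1 : crd τ (p + η • x) = y + η • τ.1 • x := by
    rw [hy]
    unfold crd
    rw [show p + η • x - τ.2 = (p - τ.2) + η • x by abel, smul_add, smul_comm τ.1 η x]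
  rw [e1, inner_add_right, real_inner_smul_right, real_inner_smul_right]
  by_cases hwa : w ∈ P.act y
  · have h3 : ⟪w, y⟫ = P.h w := hwa.2
    have h4 : τ.1 * ⟪w, x⟫ < 0 := by
      rw [hact] at hwa
      rcases hwa with h | h
      · rw [h]
        rwa [real_inner_smul_left] at h1
      · rw [h]
        rwa [real_inner_smul_left] at h2
    rw [h3]
    have := mul_neg_of_pos_of_neg hη h4
    linarith
  · have h3 := hδ w hw hwa
    have h4 : |τ.1 * ⟪w, x⟫| ≤ ‖x‖ := by
      rw [abs_mul, habs, one_mul]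
      have := abs_real_inner_le_norm w x
      rwa [P.unit w hw, one_mul] at this
    have h5 : η * (τ.1 * ⟪w, x⟫) ≤ η * ‖x‖ :=
      mul_le_mul_of_nonneg_left ((le_abs_self _).trans h4) hη.le
    have h6 : η * (‖x‖ + 1) < δ := by
      rwa [lt_div_iff₀ hx0] at hη'
    nlinarith

end Pool.FF79
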