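import Pool.Agent.FF79.NecD
import Pool.Agent.FF85.NecS
import Pool.Agent.FF79.NecE38
import Pool.Agent.FF79.NecES48

/-! FF79/NecE: the tiles around a ridge, for a sequence of flags. -/

set_option autoImplicit false

open Set Metric
open scoped RealInnerProductSpace

namespace Pool.FF79

open Pool.FF24

variable {E : Type*} [NormedAddCommGroup E] [InnerProductSpace ℝ E] {P : HPoly E} (g : Glue P)

/-- THE TILES AROUND A RIDGE. `D r` = the labels, `y₀` = a point of the ridge, `e r` = the real outer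
normals of the walls (`- ε a₁` = entry, `ε a₂` = exit). -/
theorem cycle_data (a : ℕ → E × E) (ha : ∀ r, g.Cross (a r) (a (r + 1))) :
    ∃ (y₀ : E) (D : ℕ → ℝ × E) (e : ℕ → E), y₀ ∈ P.body ∧ D 0 = (1, 0) ∧
      (∀ r, D (r + 1) = g.nb (a r).2 (D r)) ∧ (∀ r, g.Orb (D r)) ∧
      (∀ r, crd (D r) y₀ ∈ P.body ∧ P.act (crd (D r) y₀) = {(a r).1, (a r).2}) ∧
      (∀ r, e r = -((D r).1 • (a r).1)) ∧ (∀ r, e (r + 1) = (D r).1 • (a r).2) ∧
      (∀ r, ∃ α β : ℝ, 0 < α ∧ e (r + 2) = -(α • e r) + β • e (r + 1)) ∧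
      LinearIndependent ℝ ![e 0, e 1] :=
  cycle_data38 g a ha

/-- a direction in the open wedge of a tile leads into the interior of the tile -/
theorem wedge_interior [FiniteDimensional ℝ E] {τ : ℝ × E} (hτ : τ.1 = 1 ∨ τ.1 = -1) {p u v x : E}
    (hp : crd τ p ∈ P.body) (hact : P.act (crd τ p) = {u, v}) (h1 : ⟪τ.1 • u, x⟫ < 0)
    (h2 : ⟪τ.1 • v, x⟫ < 0) : ∃ η₀ > 0, ∀ η : ℝ, 0 < η → η < η₀ →
      p + η • x ∈ interior (X τ '' P.body) :=
  wedge_interior48 hτ hp hact h1 h2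

/-- two independent vectors: the inner products with them can be prescribed -/
theorem exists_dual {e f : E} (h : LinearIndependent ℝ ![e, f]) (s t : ℝ) :
    ∃ x : E, ⟪e, x⟫ = s ∧ ⟪f, x⟫ = t :=
  FF85.exists_dual h s t

/-- coordinates of a sequence with a two-term recursion; the determinants stay positive -/
theorem coords (e : ℕ → E) (h : ∀ r, ∃ α β : ℝ, 0 < α ∧ e (r + 2) = -(α • e r) + β • e (r + 1)) :
    ∃ p q : ℕ → ℝ, (∀ r, e r = p r • e 0 + q r • e 1) ∧ p 0 = 1 ∧ q 0 = 0 ∧ p 1 = 0 ∧ q 1 = 1 ∧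
      ∀ r, 0 < p r * q (r + 1) - p (r + 1) * q r :=
  FF85.coords e h

end Pool.FF79
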