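import Pool.Agent.FF79.Fin
import Pool.Agent.FF24.Basic
import Pool.Agent.FF57.OrbF
import Pool.Agent.FF24.Til

/-! FF79/Suf: assembly of the sufficiency. -/

set_option autoImplicit false

open Set Metric
open scoped RealInnerProductSpace

namespace Pool.FF79

open Pool.FF24

variable {E : Type*} [NormedAddCommGroup E] [InnerProductSpace ℝ E] [FiniteDimensional ℝ E]
  {P : HPoly E}

/-- the facet-to-facet property of the orbit (algebra): the tile `nb u τ` has the facet `X τ (fc u)` as its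
facet `star u` -/
theorem orb_facet (g : Glue P) {τ : ℝ × E} (hτ : g.Orb τ) {u : E} (hu : u ∈ P.N) :
    g.nb u τ ≠ τ ∧ ((u ∈ g.I ∧ (g.nb u τ).1 = -τ.1) ∨ (u ∉ g.I ∧ (g.nb u τ).1 = τ.1)) ∧
      X (g.nb u τ) '' P.fc (g.star u) = X τ '' P.fc u :=
  Pool.FF57.orb_facet g hτ hu

theorem K_eq (g : Glue P) (τ : g.Lab) : g.K τ = X τ.1 '' P.body := by
  have hs := sign g τ
  ext p
  constructor
  · intro hp
    exact ⟨crd τ.1 p, hp, X_crd hs p⟩
  · rintro ⟨z, hz, rfl⟩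
    change crd τ.1 (X τ.1 z) ∈ P.body
    rw [crd_X hs]
    exact hz

/-- COVER -/
theorem orb_cover (g : Glue P) (hC : g.Cyc) (x : E) : ∃ τ, g.Orb τ ∧ x ∈ X τ '' P.body := by
  obtain ⟨τ, hτ⟩ := (tiling g hC).2 x
  rw [K_eq] at hτ
  exact ⟨τ.1, τ.2, hτ⟩

/-- NO OVERLAP -/
theorem orb_no_overlap (g : Glue P) (hC : g.Cyc) {τ σ : ℝ × E} (hτ : g.Orb τ) (hσ : g.Orb σ)
    (h : τ ≠ σ) : Disjoint (interior (X τ '' P.body)) (interior (X σ '' P.body)) := by
  have h1 := (tiling g hC).1 ⟨τ, hτ⟩ ⟨σ, hσ⟩ (fun e => h (congrArg Subtype.val e))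
  rwa [K_eq, K_eq] at h1

/-- SUFFICIENCY -/
theorem suf (g : Glue P) (hC : g.Cyc) : IsTiling P g.I {τ | g.Orb τ} where
  sign := fun _ h => Orb.sign g h
  cover := fun x => by
    obtain ⟨τ, h1, h2⟩ := orb_cover g hC x
    exact ⟨τ, h1, h2⟩
  disj := fun _ h1 _ h2 h3 => orb_no_overlap g hC h1 h2 h3
  facet := fun τ h u hu => by
    have h' : g.Orb τ := h
    obtain ⟨h1, h2, h3⟩ := orb_facet g h' hu
    exact ⟨g.nb u τ, h'.step hu, h1, h2, g.star u, star_mem g hu, h3⟩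

end Pool.FF79
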