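import Pool.Agent.FF79.Nec
import Pool.Agent.FF79.Suf

/-! FF79/Main: the characterisation. -/

set_option autoImplicit false

open Set Metric
open scoped RealInnerProductSpace

namespace Pool.FF79

open Pool.FF24

variable {E : Type*} [NormedAddCommGroup E] [InnerProductSpace ℝ E] [FiniteDimensional ℝ E]

theorem main (P : HPoly E) (I : Set E) :
    (∃ T, IsTiling P I T) ↔ ∃ g : Glue P, g.I = I ∧ g.Cyc := by
  constructor
  · rintro ⟨T, hT⟩
    exact nec P hT
  · rintro ⟨g, hI, hC⟩
    exact ⟨_, hI ▸ suf g hC⟩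

end Pool.FF79
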