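import Pool.Agent.FF79.NecA

/-! FF79/Coh: if no facet is both centrally symmetric and a translate of the opposite facet then every
facet-to-facet tiling is coherent. -/

set_option autoImplicit false

open Set Metric
open scoped RealInnerProductSpace

namespace Pool.FF79

open Pool.FF24

variable {E : Type*} [NormedAddCommGroup E] [InnerProductSpace ℝ E]

/-- facet-to-facet tilings without coherence -/
structure IsF2F (P : HPoly E) (T : Set (ℝ × E)) : Prop where
  sign : ∀ τ ∈ T, τ.1 = 1 ∨ τ.1 = -1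
  cover : ∀ x : E, ∃ τ ∈ T, x ∈ X τ '' P.body
  disj : ∀ τ ∈ T, ∀ σ ∈ T, τ ≠ σ →
    Disjoint (interior (X τ '' P.body)) (interior (X σ '' P.body))
  facet : ∀ τ ∈ T, ∀ u ∈ P.N, ∃ σ ∈ T, σ ≠ τ ∧ ∃ v ∈ P.N, X σ '' P.fc v = X τ '' P.fc u

theorem coherent (P : HPoly E)
    (h : ∀ u ∈ P.N, (∃ c, ∀ z ∈ P.fc u, c - z ∈ P.fc u) → -u ∈ P.N →
      ¬ ∃ c, (fun z => z + c) '' P.fc u = P.fc (-u)) {T : Set (ℝ × E)} (hT : IsF2F P T) :
    IsTiling P {u | ∃ c, ∀ z ∈ P.fc u, c - z ∈ P.fc u} T where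
  sign := hT.sign
  cover := hT.cover
  disj := hT.disj
  facet := by
    intro τ hτ u hu
    obtain ⟨σ, hσ, hne, v, hv, hF⟩ := hT.facet τ hτ u hu
    have hn := facet_normal P (hT.sign τ hτ) (hT.sign σ hσ) hu hv
      (hT.disj τ hτ σ hσ hne.symm) hF
    refine ⟨σ, hσ, hne, ?_, v, hv, hF⟩
    have hcase : σ.1 = -τ.1 ∨ σ.1 = τ.1 := by
      rcases hT.sign τ hτ with h1 | h1 <;> rcases hT.sign σ hσ with h2 | h2 <;> rw [h1, h2] <;>
        norm_num
    have hpt : ∀ z ∈ P.fc u, ∃ z' ∈ P.fc v, σ.1 • z' + σ.2 = τ.1 • z + τ.2 := by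
      intro z hz
      have h1 : X τ z ∈ X σ '' P.fc v := by rw [hF]; exact ⟨z, hz, rfl⟩
      obtain ⟨z', hz', h2⟩ := h1
      exact ⟨z', hz', h2⟩
    have hττ : τ.1 * τ.1 = 1 := by
      rcases hT.sign τ hτ with h1 | h1 <;> rw [h1] <;> norm_num
    rcases hcase with hs | hs
    · left
      refine ⟨?_, hs⟩
      have hvu : v = u := by
        rw [hs, neg_smul] at hn
        have h1 := neg_injective hn
        have h2 := congrArg (fun w => τ.1 • w) h1
        simpa [smul_smul, hττ] using h2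
      subst hvu
      refine ⟨τ.1 • (σ.2 - τ.2), fun z hz => ?_⟩
      obtain ⟨z', hz', h2⟩ := hpt z hz
      have h3 : z' = τ.1 • (σ.2 - τ.2) - z := by
        rw [hs] at h2
        have h4 : z' = (τ.1 * τ.1) • z' := by rw [hττ, one_smul]
        have h5 : (τ.1 * τ.1) • z' = τ.1 • (σ.2 - τ.2) - (τ.1 * τ.1) • z := by
          have h6 : τ.1 • z' = σ.2 - τ.2 - τ.1 • z := by
            have : -τ.1 • z' + σ.2 = τ.1 • z + τ.2 := h2
            rw [neg_smul] at this
            have h7 : τ.1 • z' = σ.2 - (τ.1 • z + τ.2) := by rw [← this]; abel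
            rw [h7]; abel
          rw [← smul_smul, h6, smul_sub, smul_smul]
        rw [h4, h5, hττ, one_smul]
      rw [← h3]
      exact hz'
    · right
      refine ⟨?_, hs⟩
      have hvu : v = -u := by
        rw [hs, ← smul_neg] at hn
        have h2 := congrArg (fun w => τ.1 • w) hn
        simpa [smul_smul, hττ] using h2
      subst hvu
      intro hI
      have key : ∀ z z' : E, σ.1 • z' + σ.2 = τ.1 • z + τ.2 → z' = z + τ.1 • (τ.2 - σ.2) := by
        intro z z' h2
        rw [hs] at h2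
        have h6 : τ.1 • z' = τ.1 • z + (τ.2 - σ.2) := by
          have h7 : τ.1 • z' = τ.1 • z + τ.2 - σ.2 := by rw [← h2]; abel
          rw [h7]; abel
        have h8 := congrArg (fun w => τ.1 • w) h6
        simpa [smul_smul, smul_add, hττ] using h8
      refine h u hu hI hv ⟨τ.1 • (τ.2 - σ.2), ?_⟩
      ext y
      constructor
      · rintro ⟨z, hz, rfl⟩
        obtain ⟨z', hz', h2⟩ := hpt z hz
        have h3 := key z z' h2
        change z + τ.1 • (τ.2 - σ.2) ∈ P.fc (-u)
        rw [← h3]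
        exact hz'
      · intro hy
        have h1 : X σ y ∈ X τ '' P.fc u := by rw [← hF]; exact ⟨y, hy, rfl⟩
        obtain ⟨z, hz, h2⟩ := h1
        exact ⟨z, hz, (key z y h2.symm).symm⟩

theorem f2f_of_tiling (P : HPoly E) {I : Set E} {T : Set (ℝ × E)} (hT : IsTiling P I T) :
    IsF2F P T where
  sign := hT.sign
  cover := hT.cover
  disj := hT.disj
  facet := by
    intro τ hτ u hu
    obtain ⟨σ, hσ, hne, -, h⟩ := hT.facet τ hτ u hu
    exact ⟨σ, hσ, hne, h⟩

end Pool.FF79
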