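import Pool.Agent.FF79.Uniq
import Pool.Agent.FF79.Coh

/-! FF79/Trans: a tile-transitive facet-to-facet tiling is coherent. -/

set_option autoImplicit false

open Set Metric
open scoped RealInnerProductSpace

namespace Pool.FF79

open Pool.FF24

variable {E : Type*} [NormedAddCommGroup E] [InnerProductSpace ℝ E] [FiniteDimensional ℝ E]

theorem X_comp_image (μ τ : ℝ × E) (A : Set E) : X (comp μ τ) '' A = X μ '' (X τ '' A) := by
  rw [Set.image_image]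
  exact Set.image_congr (fun z _ => X_comp μ τ z)

/-- only one tile lies behind a facet -/
theorem behind_unique (Q : HPoly E) {T : Set (ℝ × E)} (hT : IsF2F Q T) {τ σ σ' : ℝ × E} {u v v' : E}
    (hτ : τ ∈ T) (hσ : σ ∈ T) (hσ' : σ' ∈ T) (hne : σ ≠ τ) (hne' : σ' ≠ τ) (hu : u ∈ Q.N)
    (hv : v ∈ Q.N) (hv' : v' ∈ Q.N) (hF : X σ '' Q.fc v = X τ '' Q.fc u)
    (hF' : X σ' '' Q.fc v' = X τ '' Q.fc u) : σ = σ' := by
  by_contra hcon
  have h1 := facet_normal Q (hT.sign τ hτ) (hT.sign σ hσ) hu hv (hT.disj τ hτ σ hσ hne.symm) hF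
  have h2 := facet_normal Q (hT.sign τ hτ) (hT.sign σ' hσ') hu hv' (hT.disj τ hτ σ' hσ' hne'.symm) hF'
  have h3 := facet_normal Q (hT.sign σ hσ) (hT.sign σ' hσ') hv hv' (hT.disj σ hσ σ' hσ' hcon)
    (hF'.trans hF.symm)
  rw [h1, h2] at h3
  have h4 : τ.1 • u = 0 := by
    have h5 : (2 : ℝ) • (τ.1 • u) = 0 := by
      rw [two_smul]
      nth_rewrite 1 [← neg_neg (τ.1 • u)]
      rw [h3]
      abel
    exact (smul_eq_zero.1 h5).resolve_left two_ne_zero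
  have h6 := Q.unit u hu
  rcases smul_eq_zero.1 h4 with h7 | h7
  · rcases hT.sign τ hτ with h8 | h8 <;> rw [h8] at h7 <;> norm_num at h7
  · rw [h7, norm_zero] at h6
    exact one_ne_zero h6.symm

theorem coherent_of_transitive (Q : HPoly E) {T : Set (ℝ × E)} (hT : IsF2F Q T)
    (htr : ∀ τ ∈ T, ∀ τ' ∈ T, ∃ μ : ℝ × E, (μ.1 = 1 ∨ μ.1 = -1) ∧ comp μ τ = τ' ∧
      comp μ '' T = T) : ∃ I, IsTiling Q I T := by
  obtain ⟨τ₀, hτ₀, -⟩ := hT.cover 0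
  refine ⟨{u | ∃ σ ∈ T, σ ≠ τ₀ ∧ σ.1 = -τ₀.1 ∧ ∃ v ∈ Q.N, X σ '' Q.fc v = X τ₀ '' Q.fc u},
    hT.sign, hT.cover, hT.disj, ?_⟩
  intro τ hτ u hu
  obtain ⟨σ, hσ, hne, v, hv, hF⟩ := hT.facet τ hτ u hu
  refine ⟨σ, hσ, hne, ?_, v, hv, hF⟩
  obtain ⟨μ, hμ, hμτ, hμT⟩ := htr τ hτ τ₀ hτ₀
  have hinj : Function.Injective (comp μ) := by
    intro a b hab
    have h1 := congrArg Prod.fst hab
    have h2 := congrArg Prod.snd hab
    simp only [comp] at h1 h2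
    have hμ0 : μ.1 ≠ 0 := by rcases hμ with h | h <;> rw [h] <;> norm_num
    refine Prod.ext (mul_left_cancel₀ hμ0 h1) ?_
    exact smul_right_injective E hμ0 (add_right_cancel h2)
  have hσ' : comp μ σ ∈ T := by rw [← hμT]; exact ⟨σ, hσ, rfl⟩
  have hne' : comp μ σ ≠ τ₀ := by
    rw [← hμτ]
    exact fun h => hne (hinj h)
  have hF' : X (comp μ σ) '' Q.fc v = X τ₀ '' Q.fc u := by
    rw [← hμτ, X_comp_image, X_comp_image, hF]
  have hcase : σ.1 = -τ.1 ∨ σ.1 = τ.1 := by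
    rcases hT.sign τ hτ with h1 | h1 <;> rcases hT.sign σ hσ with h2 | h2 <;> rw [h1, h2] <;>
      norm_num
  have h0 : τ₀.1 = μ.1 * τ.1 := by rw [← hμτ]; rfl
  have h1 : (comp μ σ).1 = μ.1 * σ.1 := rfl
  rcases hcase with hs | hs
  · left
    refine ⟨⟨comp μ σ, hσ', hne', ?_, v, hv, hF'⟩, hs⟩
    rw [h1, h0, hs]; ring
  · right
    refine ⟨?_, hs⟩
    rintro ⟨σ', hσ'T, hneσ', hsg, v', hv', hFσ'⟩
    have heq := behind_unique Q hT hτ₀ hσ' hσ'T hne' hneσ' hu hv hv' hF' hFσ'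
    rw [← heq, h1, hs, h0] at hsg
    have hτ1 := hT.sign τ hτ
    rcases hμ with h | h <;> rcases hτ1 with h' | h' <;> rw [h, h'] at hsg <;> norm_num at hsg

end Pool.FF79
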