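import Pool.Agent.FF79.D2
import Pool.Agent.FF79.Trans
import Pool.Agent.FF57.Fin23

/-! FF79/Coh23: facet-to-facet tilings in dimensions 2 and 3. -/

set_option autoImplicit false

open Set Metric
open scoped RealInnerProductSpace

namespace Pool.FF79

open Pool.FF24 Pool.FF56 Pool.FF57

variable {E : Type*} [NormedAddCommGroup E] [InnerProductSpace ℝ E] [FiniteDimensional ℝ E]
  {P : HPoly E} {T : Set (ℝ × E)}

theorem coh_or_csym2 (hd : Module.finrank ℝ E = 2) (hT : IsFF P T) :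
    (∃ I : Set E, IsTiling P I T) ∨ ∃ C : E, ∀ z ∈ P.body, C - z ∈ P.body := by
  by_cases h : ∀ a, ¬ Varies P T a
  · exact Or.inl (coh_of_not_varies hT h)
  · push Not at h
    obtain ⟨a, ha⟩ := h
    obtain ⟨h1, h2, h3⟩ := varies_data hT ha
    obtain ⟨y, hy, x, hax, hact⟩ := ridge2 hd h1
    exact Or.inr (csym_of_belt2 hd (belt_of_varies hT ha hy hax hact) h2)

theorem exists_coh23 (hd : Module.finrank ℝ E = 2 ∨ Module.finrank ℝ E = 3) (hT : IsF2F P T) :
    ∃ (I : Set E) (T' : Set (ℝ × E)), IsTiling P I T' := by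
  have hT' : IsFF P T := ⟨hT.sign, hT.cover, hT.disj, hT.facet⟩
  have h : (∃ I : Set E, IsTiling P I T) ∨ ∃ C : E, ∀ z ∈ P.body, C - z ∈ P.body := by
    rcases hd with hd | hd
    · exact coh_or_csym2 hd hT'
    · exact coh_or_csym3 hd hT'
  rcases h with ⟨I, hI⟩ | ⟨C, hC⟩
  · exact ⟨I, T, hI⟩
  · exact ⟨∅, _, (csym P hC hT).1⟩

end Pool.FF79
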