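import Pool.Agent.FF57.CDef
import Pool.Agent.FF24.Act
import Pool.Agent.FF79.NecE

/-! FF79/D2: dimension 2: a polygon with a symmetric belt is centrally symmetric. -/

set_option autoImplicit false

open Set Metric
open scoped RealInnerProductSpace

namespace Pool.FF79

open Pool.FF24 Pool.FF56 Pool.FF57

variable {E : Type*} [NormedAddCommGroup E] [InnerProductSpace ℝ E] {P : HPoly E}

theorem mem_cone {y u v n : E} (hy : y ∈ P.body) (hu : u ∈ P.act y) (hv : v ∈ P.act y) (hn : n ∈ P.N)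
    {α β : ℝ} (hα : 0 ≤ α) (hβ : 0 ≤ β) (h : n = α • u + β • v) : n = u ∨ n = v := by
  obtain ⟨z, hz1, hz2⟩ := P.real n hn
  have h0 : ⟪n, z⟫ = P.h n := (hz2 n hn).2 rfl
  by_contra hc
  push Not at hc
  have h1 : ⟪u, z⟫ < P.h u := lt_of_le_of_ne (hz1 u hu.1) fun e => hc.1 ((hz2 u hu.1).1 e).symm
  have h2 : ⟪v, z⟫ < P.h v := lt_of_le_of_ne (hz1 v hv.1) fun e => hc.2 ((hz2 v hv.1).1 e).symm
  have h3 : ⟪n, y⟫ = α * P.h u + β * P.h v := by
    rw [h, inner_add_left, real_inner_smul_left, real_inner_smul_left, hu.2, hv.2]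
  have h4 : ⟪n, z⟫ = α * ⟪u, z⟫ + β * ⟪v, z⟫ := by
    rw [h, inner_add_left, real_inner_smul_left, real_inner_smul_left]
  have h5 : ⟪n, y⟫ ≤ P.h n := hy n hn
  have h6 : α = 0 ∧ β = 0 := by
    have h7 : α * (P.h u - ⟪u, z⟫) + β * (P.h v - ⟪v, z⟫) ≤ 0 := by linarith
    have h8 : 0 ≤ α * (P.h u - ⟪u, z⟫) := mul_nonneg hα (by linarith)
    have h9 : 0 ≤ β * (P.h v - ⟪v, z⟫) := mul_nonneg hβ (by linarith)
    constructor
    · rcases mul_eq_zero.1 (le_antisymm (by linarith) h8) with h | h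
      · exact h
      · linarith
    · rcases mul_eq_zero.1 (le_antisymm (by linarith) h9) with h | h
      · exact h
      · linarith
  have h7 : n = 0 := by rw [h, h6.1, h6.2, zero_smul, zero_smul, add_zero]
  have h8 := P.unit n hn
  rw [h7, norm_zero] at h8
  exact zero_ne_one h8

/-- unpack a flag -/
theorem fl_data {y0 u v : E} (h : Fl P y0 u v) : ∃ y ∈ P.body, P.act y = {u, v} ∧ u ∈ P.act y ∧
    v ∈ P.act y ∧ u ∈ P.N ∧ v ∈ P.N ∧ LinearIndependent ℝ ![u, v] := by
  obtain ⟨huv, y, hy, hact, -⟩ := h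
  have hu : u ∈ P.act y := by rw [hact]; simp
  have hv : v ∈ P.act y := by rw [hact]; simp
  exact ⟨y, hy, hact, hu, hv, hu.1, hv.1, act_pair hy hu hv huv⟩

theorem li_coord [FiniteDimensional ℝ E] (hd : Module.finrank ℝ E = 2) {u v : E}
    (h : LinearIndependent ℝ ![u, v]) (n : E) : ∃ α β : ℝ, n = α • u + β • v := by
  have h1 : Submodule.span ℝ (Set.range ![u, v]) = ⊤ := by
    apply h.span_eq_top_of_card_eq_finrank'
    rw [hd]
    simp
  have h2 : n ∈ Submodule.span ℝ (Set.range ![u, v]) := by rw [h1]; trivial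
  rw [Matrix.range_cons, Matrix.range_cons, Matrix.range_empty, Set.union_empty,
    Set.singleton_union, Submodule.mem_span_pair] at h2
  obtain ⟨α, β, h3⟩ := h2
  exact ⟨α, β, h3.symm⟩

/-- the centre from the support numbers -/
theorem csym_of_center {C : E} (h : ∀ u ∈ P.N, -u ∈ P.N ∧ ⟪u, C⟫ = P.h u - P.h (-u)) :
    ∀ z ∈ P.body, C - z ∈ P.body := by
  intro z hz u hu
  obtain ⟨h1, h2⟩ := h u hu
  have h3 := hz (-u) h1
  rw [inner_neg_left] at h3
  rw [inner_sub_right, h2]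
  linarith

theorem csym_of_belt2 [FiniteDimensional ℝ E] (hd : Module.finrank ℝ E = 2) {a y0 : E}
    (hB : Belt P a y0) (hT : Tra P a) : ∃ C, ∀ z ∈ P.body, C - z ∈ P.body := by
  rcases hB with ⟨b, f1, f2, f3, f4⟩ | ⟨b, w, f1, f2, f3, f4, f5, f6⟩
  · obtain ⟨y1, hy1, -, a1, b1, haN, hbN, hli⟩ := fl_data f1
    obtain ⟨y2, hy2, -, b2, na2, -, hnaN, -⟩ := fl_data f2
    obtain ⟨y3, hy3, -, na3, nb3, -, hnbN, -⟩ := fl_data f3
    obtain ⟨y4, hy4, -, nb4, a4, -, -, -⟩ := fl_data f4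
    obtain ⟨C, hC1, hC2⟩ := exists_dual hli (P.h a - P.h (-a)) (P.h b - P.h (-b))
    refine ⟨C, csym_of_center ?_⟩
    intro n hn
    obtain ⟨α, β, h⟩ := li_coord hd hli n
    have key : n = a ∨ n = -a ∨ n = b ∨ n = -b := by
      rcases le_total 0 α with hα | hα <;> rcases le_total 0 β with hβ | hβ
      · rcases mem_cone hy1 a1 b1 hn hα hβ h with h' | h' <;> simp [h']
      · rcases mem_cone hy4 a4 nb4 hn hα (neg_nonneg.2 hβ) (by rw [h, smul_neg, neg_smul, neg_neg])
          with h' | h' <;> simp [h']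
      · rcases mem_cone hy2 na2 b2 hn (neg_nonneg.2 hα) hβ (by rw [h, smul_neg, neg_smul, neg_neg])
          with h' | h' <;> simp [h']
      · rcases mem_cone hy3 na3 nb3 hn (neg_nonneg.2 hα) (neg_nonneg.2 hβ)
          (by rw [h, smul_neg, neg_smul, neg_neg, smul_neg, neg_smul, neg_neg]) with h' | h' <;>
          simp [h']
    rcases key with rfl | rfl | rfl | rfl
    · exact ⟨hnaN, hC1⟩
    · refine ⟨by rwa [neg_neg], ?_⟩
      rw [inner_neg_left, hC1, neg_neg]; ring
    · exact ⟨hnbN, hC2⟩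
    · refine ⟨by rwa [neg_neg], ?_⟩
      rw [inner_neg_left, hC2, neg_neg]; ring
  · obtain ⟨y1, hy1, -, a1, b1, haN, hbN, hab⟩ := fl_data f1
    obtain ⟨y2, hy2, -, b2, w2, -, hwN, hbw⟩ := fl_data f2
    obtain ⟨y3, hy3, -, w3, na3, -, hnaN, hwna⟩ := fl_data f3
    obtain ⟨y4, hy4, -, na4, nb4, -, hnbN, hnab⟩ := fl_data f4
    obtain ⟨y5, hy5, -, nb5, nw5, -, hnwN, hnbw⟩ := fl_data f5
    obtain ⟨y6, hy6, -, nw6, a6, -, -, hnwa⟩ := fl_data f6
    have hwa : LinearIndependent ℝ ![w, a] := by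
      rw [LinearIndependent.pair_iff] at hwna ⊢
      intro s t hst
      have h1 := hwna s (-t) (by rw [neg_smul, smul_neg, neg_neg]; exact hst)
      exact ⟨h1.1, by linarith [h1.2]⟩
    have pne : ∀ {u v : E}, LinearIndependent ℝ ![u, v] → u ≠ v := by
      intro u v h e
      rw [LinearIndependent.pair_iff] at h
      have := h 1 (-1) (by rw [e]; simp)
      exact one_ne_zero this.1
    have pnn : ∀ {u v : E}, LinearIndependent ℝ ![u, v] → u ≠ -v := by
      intro u v h e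
      rw [LinearIndependent.pair_iff] at h
      have := h 1 1 (by rw [e]; simp)
      exact one_ne_zero this.1
    obtain ⟨μ, l, hb⟩ := li_coord hd hwa b
    -- `b = μ w + l a`
    have hl : 0 < l ∧ 0 < μ := by
      have c1 : ¬ (0 ≤ l ∧ μ ≤ 0) := by
        rintro ⟨h1, h2⟩
        rcases mem_cone hy6 a6 nw6 hbN h1 (neg_nonneg.2 h2)
          (by rw [hb, smul_neg, neg_smul, neg_neg, add_comm]) with h' | h'
        · exact pne hab h'.symm
        · exact pnn hbw h'
      have c2 : ¬ (l ≤ 0 ∧ 0 ≤ μ) := by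
        rintro ⟨h1, h2⟩
        rcases mem_cone hy3 w3 na3 hbN h2 (neg_nonneg.2 h1)
          (by rw [hb, smul_neg, neg_smul, neg_neg]) with h' | h'
        · exact pne hbw h'
        · exact pnn hab (by rw [h', neg_neg])
      have c3 : ¬ (l < 0 ∧ μ < 0) := by
        rintro ⟨h1, h2⟩
        have e1 : -w = (l / μ) • a + (-(1 / μ)) • b := by
          rw [hb, smul_add, smul_smul, smul_smul]
          have e2 : -(1 / μ) * μ = -1 := by rw [neg_mul, one_div, inv_mul_cancel₀ h2.ne]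
          have e3 : -(1 / μ) * l = -(l / μ) := by ring
          rw [e2, e3, neg_smul, neg_smul, one_smul]
          abel
        rcases mem_cone hy1 a1 b1 hnwN (div_nonneg_of_nonpos h1.le h2.le)
          (by rw [neg_nonneg]; exact div_nonpos_of_nonneg_of_nonpos zero_le_one h2.le) e1 with h' | h'
        · exact pne hnwa h'
        · exact pnn hbw h'.symm
      rcases lt_trichotomy l 0 with h1 | h1 | h1 <;> rcases lt_trichotomy μ 0 with h2 | h2 | h2
      · exact absurd ⟨h1, h2⟩ c3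
      · exact absurd ⟨h1.le, h2.ge⟩ c2
      · exact absurd ⟨h1.le, h2.le⟩ c2
      · exact absurd ⟨h1.ge, h2.le⟩ c1
      · exact absurd ⟨h1.ge, h2.le⟩ c1
      · exact absurd ⟨h1.le, h2.le⟩ c2
      · exact absurd ⟨h1.le, h2.le⟩ c1
      · exact absurd ⟨h1.le, h2.le⟩ c1
      · exact ⟨h1, h2⟩
    obtain ⟨hl, hμ⟩ := hl
    -- the normals
    have key : ∀ n ∈ P.N, n = a ∨ n = -a ∨ n = b ∨ n = -b ∨ n = w ∨ n = -w := by
      intro n hn
      obtain ⟨β, α, h⟩ := li_coord hd hwa n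
      -- two halves of the quadrant
      have quad : ∀ α β : ℝ, 0 ≤ α → 0 ≤ β → (∃ s t : ℝ, 0 ≤ s ∧ 0 ≤ t ∧ β • w + α • a = s • a + t • b) ∨
          ∃ s t : ℝ, 0 ≤ s ∧ 0 ≤ t ∧ β • w + α • a = s • b + t • w := by
        intro α β hα hβ
        rcases le_total (β * l) (α * μ) with hc | hc
        · left
          refine ⟨α - β * l / μ, β / μ, ?_, by positivity, ?_⟩
          · rw [sub_nonneg, div_le_iff₀ hμ]; exact hc
          · rw [hb, smul_add, smul_smul, smul_smul]
            have e1 : β / μ * μ = β := by field_simp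
            have e2 : β / μ * l = β * l / μ := by ring
            rw [e1, e2, sub_smul]
            abel
        · right
          refine ⟨α / l, β - α * μ / l, by positivity, ?_, ?_⟩
          · rw [sub_nonneg, div_le_iff₀ hl]; exact hc
          · rw [hb, smul_add, smul_smul, smul_smul]
            have e1 : α / l * l = α := by field_simp
            have e2 : α / l * μ = α * μ / l := by ring
            rw [e1, e2, sub_smul]
            abel
      rcases le_total 0 α with hα | hα <;> rcases le_total 0 β with hβ | hβ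
      · rcases quad α β hα hβ with ⟨s, t, hs, ht, e⟩ | ⟨s, t, hs, ht, e⟩
        · rcases mem_cone hy1 a1 b1 hn hs ht (h.trans e) with h' | h' <;> simp [h']
        · rcases mem_cone hy2 b2 w2 hn hs ht (h.trans e) with h' | h' <;> simp [h']
      · rcases mem_cone hy6 a6 nw6 hn hα (neg_nonneg.2 hβ)
          (by rw [h, smul_neg, neg_smul, neg_neg, add_comm]) with h' | h' <;> simp [h']
      · rcases mem_cone hy3 w3 na3 hn hβ (neg_nonneg.2 hα)
          (by rw [h, smul_neg, neg_smul, neg_neg]) with h' | h' <;> simp [h']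
      · rcases quad (-α) (-β) (neg_nonneg.2 hα) (neg_nonneg.2 hβ) with
          ⟨s, t, hs, ht, e⟩ | ⟨s, t, hs, ht, e⟩
        · have e' : n = s • (-a) + t • (-b) := by
            rw [smul_neg, smul_neg, ← neg_add, ← e, h, neg_smul, neg_smul]
            abel
          rcases mem_cone hy4 na4 nb4 hn hs ht e' with h' | h' <;> simp [h']
        · have e' : n = s • (-b) + t • (-w) := by
            rw [smul_neg, smul_neg, ← neg_add, ← e, h, neg_smul, neg_smul]
            abel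
          rcases mem_cone hy5 nb5 nw5 hn hs ht e' with h' | h' <;> simp [h']
    -- the widths
    obtain ⟨-, t, ht⟩ := hT
    have hF1 : y1 ∈ P.fc a := ⟨hy1, a1.2⟩
    have hF6 : y6 ∈ P.fc a := ⟨hy6, a6.2⟩
    have hF3 : y3 ∈ P.fc (-a) := ⟨hy3, na3.2⟩
    have hF4 : y4 ∈ P.fc (-a) := ⟨hy4, na4.2⟩
    have max1 : ∀ z ∈ P.fc a, ⟪w, z⟫ ≤ ⟪w, y1⟫ := by
      intro z hz
      have h1 : ⟪b, z⟫ ≤ ⟪b, y1⟫ := by rw [b1.2]; exact hz.1 b hbN
      rw [hb, inner_add_left, inner_add_left, real_inner_smul_left, real_inner_smul_left,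
        real_inner_smul_left, real_inner_smul_left, hz.2, hF1.2] at h1
      exact le_of_mul_le_mul_left (by linarith) hμ
    have min6 : ∀ z ∈ P.fc a, ⟪w, y6⟫ ≤ ⟪w, z⟫ := by
      intro z hz
      have h1 : ⟪-w, z⟫ ≤ ⟪-w, y6⟫ := by rw [nw6.2]; exact hz.1 _ hnwN
      rw [inner_neg_left, inner_neg_left] at h1
      linarith
    have max3 : ∀ z ∈ P.fc (-a), ⟪w, z⟫ ≤ ⟪w, y3⟫ := by
      intro z hz
      rw [w3.2]
      exact hz.1 w hwN
    have min4 : ∀ z ∈ P.fc (-a), ⟪w, y4⟫ ≤ ⟪w, z⟫ := by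
      intro z hz
      have h1 : ⟪-b, z⟫ ≤ ⟪-b, y4⟫ := by rw [nb4.2]; exact hz.1 _ hnbN
      have h2 : ⟪a, z⟫ = ⟪a, y4⟫ := by
        have e1 := hz.2
        have e2 := hF4.2
        rw [inner_neg_left] at e1 e2
        linarith
      rw [inner_neg_left, inner_neg_left, hb, inner_add_left, inner_add_left, real_inner_smul_left,
        real_inner_smul_left, real_inner_smul_left, real_inner_smul_left, h2] at h1
      exact le_of_mul_le_mul_left (by linarith) hμ
    have wid : ⟪w, y1⟫ - ⟪w, y6⟫ = ⟪w, y3⟫ - ⟪w, y4⟫ := by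
      have q1 := max3 _ ((ht y1).1 hF1)
      have q2 := min4 _ ((ht y6).1 hF6)
      have q3 := max1 (y3 - t) ((ht (y3 - t)).2 (by rw [sub_add_cancel]; exact hF3))
      have q4 := min6 (y4 - t) ((ht (y4 - t)).2 (by rw [sub_add_cancel]; exact hF4))
      rw [inner_add_right] at q1 q2
      rw [inner_sub_right] at q3 q4
      linarith
    obtain ⟨C, hC1, hC2⟩ := exists_dual hwa (P.h w - P.h (-w)) (P.h a - P.h (-a))
    have hCb : ⟪b, C⟫ = P.h b - P.h (-b) := by
      have e1 : P.h b = μ * ⟪w, y1⟫ + l * P.h a := by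
        rw [← b1.2, hb, inner_add_left, real_inner_smul_left, real_inner_smul_left, a1.2]
      have e2 : P.h (-b) = -(μ * ⟪w, y4⟫) + l * P.h (-a) := by
        rw [← nb4.2, ← na4.2, hb, inner_neg_left, inner_neg_left, inner_add_left,
          real_inner_smul_left, real_inner_smul_left]
        ring
      have e3 : P.h w = ⟪w, y3⟫ := w3.2.symm
      have e4 : P.h (-w) = -⟪w, y6⟫ := by rw [← nw6.2, inner_neg_left]
      have e5 : ⟪b, C⟫ = μ * (P.h w - P.h (-w)) + l * (P.h a - P.h (-a)) := by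
        rw [← hC1, ← hC2]
        conv_lhs => rw [hb]
        rw [inner_add_left, real_inner_smul_left, real_inner_smul_left]
      rw [e5, e1, e2, e3, e4]
      have : ⟪w, y3⟫ + ⟪w, y6⟫ = ⟪w, y1⟫ + ⟪w, y4⟫ := by linarith
      linear_combination μ * this
    refine ⟨C, csym_of_center ?_⟩
    intro n hn
    rcases key n hn with h | h | h | h | h | h <;> rw [h]
    · exact ⟨hnaN, hC2⟩
    · refine ⟨by rwa [neg_neg], ?_⟩
      rw [inner_neg_left, hC2, neg_neg]; ring
    · exact ⟨hnbN, hCb⟩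
    · refine ⟨by rwa [neg_neg], ?_⟩
      rw [inner_neg_left, hCb, neg_neg]; ring
    · exact ⟨hnwN, hC1⟩
    · refine ⟨by rwa [neg_neg], ?_⟩
      rw [inner_neg_left, hC1, neg_neg]; ring

/-- dimension 2: every facet contains a point with exactly one more active facet -/
theorem ridge2 [FiniteDimensional ℝ E] (hd : Module.finrank ℝ E = 2) {u : E} (hu : u ∈ P.N) :
    ∃ y ∈ P.body, ∃ x : E, u ≠ x ∧ P.act y = {u, x} := by
  classical
  obtain ⟨z, hz1, hz2⟩ := P.real u hu
  have hzu : ⟪u, z⟫ = P.h u := (hz2 u hu).2 rfl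
  have hu0 : u ≠ 0 := by
    intro h
    have := P.unit u hu
    rw [h, norm_zero] at this
    exact zero_ne_one this
  -- a nonzero vector orthogonal to `u`
  obtain ⟨v, hv0, huv⟩ : ∃ v : E, v ≠ 0 ∧ ⟪u, v⟫ = 0 := by
    have h1 : Module.finrank ℝ (ℝ ∙ u)ᗮ = 1 := by
      have := Submodule.finrank_add_finrank_orthogonal (ℝ ∙ u)
      rw [finrank_span_singleton hu0, hd] at this
      omega
    haveI : Nontrivial (ℝ ∙ u)ᗮ := Module.nontrivial_of_finrank_pos (R := ℝ) (by rw [h1]; norm_num)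
    obtain ⟨v, hv⟩ := exists_ne (0 : (ℝ ∙ u)ᗮ)
    exact ⟨v, fun h => hv (Subtype.ext h), Submodule.mem_orthogonal_singleton_iff_inner_right.1 v.2⟩
  -- some inequality is violated on the ray
  obtain ⟨r, hr⟩ := P.bdd
  set J := P.N.filter fun n => 0 < ⟪n, v⟫ with hJ
  have hJne : J.Nonempty := by
    by_contra hJe
    rw [Finset.not_nonempty_iff_eq_empty] at hJe
    have h1 : ∀ s : ℝ, 0 ≤ s → z + s • v ∈ P.body := by
      intro s hs n hn
      have h2 : ¬ 0 < ⟪n, v⟫ := by
        intro h3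
        have : n ∈ J := Finset.mem_filter.2 ⟨hn, h3⟩
        rw [hJe] at this
        exact absurd this (Finset.notMem_empty n)
      rw [inner_add_right, real_inner_smul_right]
      have := hz1 n hn
      nlinarith [not_lt.1 h2]
    have hvn : 0 < ‖v‖ := norm_pos_iff.2 hv0
    have hrz : ‖z‖ ≤ r := hr z hz1
    have hr0 : 0 ≤ r + ‖z‖ + 1 := by have := norm_nonneg z; linarith
    have h2 := hr _ (h1 ((r + ‖z‖ + 1) / ‖v‖) (div_nonneg hr0 hvn.le))
    have h3 : ‖((r + ‖z‖ + 1) / ‖v‖) • v‖ = r + ‖z‖ + 1 := by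
      rw [norm_smul, Real.norm_of_nonneg (div_nonneg hr0 hvn.le)]
      field_simp
    have h4 : ‖((r + ‖z‖ + 1) / ‖v‖) • v‖ ≤ ‖z + ((r + ‖z‖ + 1) / ‖v‖) • v‖ + ‖z‖ := by
      have h5 := norm_sub_le (z + ((r + ‖z‖ + 1) / ‖v‖) • v) z
      rwa [add_sub_cancel_left] at h5
    linarith
  obtain ⟨x, hxJ, hxmin⟩ := J.exists_min_image (fun n => (P.h n - ⟪n, z⟫) / ⟪n, v⟫) hJne
  obtain ⟨hxN, hxv⟩ := Finset.mem_filter.1 hxJ
  have hux : u ≠ x := by
    rintro rfl
    rw [huv] at hxv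
    exact lt_irrefl _ hxv
  have hslt : ∀ n ∈ P.N, n ≠ u → ⟪n, z⟫ < P.h n := fun n hn hne =>
    lt_of_le_of_ne (hz1 n hn) fun e => hne ((hz2 n hn).1 e)
  set s := (P.h x - ⟪x, z⟫) / ⟪x, v⟫ with hs
  have hs0 : 0 ≤ s := by
    have := hslt x hxN hux.symm
    apply div_nonneg <;> linarith
  have hy : z + s • v ∈ P.body := by
    intro n hn
    rw [inner_add_right, real_inner_smul_right]
    rcases lt_or_ge 0 ⟪n, v⟫ with h1 | h1
    · have h2 := hxmin n (Finset.mem_filter.2 ⟨hn, h1⟩)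
      have h3 : s ≤ (P.h n - ⟪n, z⟫) / ⟪n, v⟫ := h2
      rw [le_div_iff₀ h1] at h3
      linarith
    · have h2 := hz1 n hn
      nlinarith
  have hua : u ∈ P.act (z + s • v) := by
    refine ⟨hu, ?_⟩
    rw [inner_add_right, real_inner_smul_right, huv, hzu, mul_zero, add_zero]
  have hxa : x ∈ P.act (z + s • v) := by
    refine ⟨hxN, ?_⟩
    rw [inner_add_right, real_inner_smul_right, hs, div_mul_cancel₀ _ hxv.ne']
    ring
  refine ⟨z + s • v, hy, x, hux, ?_⟩
  apply Set.Subset.antisymm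
  · intro n hn
    by_contra hcon
    simp only [Set.mem_insert_iff, Set.mem_singleton_iff, not_or] at hcon
    have h3 := act_three hy hua hxa hn hux (Ne.symm hcon.1) (Ne.symm hcon.2)
    have h4 := h3.fintype_card_le_finrank
    rw [hd] at h4
    norm_num at h4
  · rintro n (rfl | rfl)
    · exact hua
    · exact hxa

end Pool.FF79
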