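import Pool.Agent.FF79.D2
import Pool.Agent.FF57.Bcov

/-! FF79/Exc: the facets of a symmetric belt, in every dimension. -/

set_option autoImplicit false

open Set Metric
open scoped RealInnerProductSpace

namespace Pool.FF79

open Pool.FF24 Pool.FF56 Pool.FF57

variable {E : Type*} [NormedAddCommGroup E] [InnerProductSpace ℝ E] {P : HPoly E}

theorem pne {u v : E} (h : LinearIndependent ℝ ![u, v]) : u ≠ v := by
  intro e
  rw [LinearIndependent.pair_iff] at h
  have := h 1 (-1) (by rw [e]; simp)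
  exact one_ne_zero this.1

theorem pnn {u v : E} (h : LinearIndependent ℝ ![u, v]) : u ≠ -v := by
  intro e
  rw [LinearIndependent.pair_iff] at h
  have := h 1 1 (by rw [e]; simp)
  exact one_ne_zero this.1

/-- a vector orthogonal to everything that is orthogonal to `a` and `x` is in their span -/
theorem span_of_perp [FiniteDimensional ℝ E] {a x u : E}
    (h : ∀ g : E, ⟪a, g⟫ = 0 → ⟪x, g⟫ = 0 → ⟪u, g⟫ = 0) : u ∈ Submodule.span ℝ {a, x} := by
  rw [← Submodule.orthogonal_orthogonal (Submodule.span ℝ {a, x})]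
  rw [Submodule.mem_orthogonal]
  intro g hg
  rw [Submodule.mem_orthogonal] at hg
  have h1 : ⟪a, g⟫ = 0 := hg a (Submodule.subset_span (by simp))
  have h2 : ⟪x, g⟫ = 0 := hg x (Submodule.subset_span (by simp))
  rw [real_inner_comm]
  exact h g h1 h2

/-- two independent vectors of a plane span it -/
theorem coord_of_span [FiniteDimensional ℝ E] {a x u v n : E} (hu : u ∈ Submodule.span ℝ {a, x})
    (hv : v ∈ Submodule.span ℝ {a, x}) (hn : n ∈ Submodule.span ℝ {a, x})
    (h : LinearIndependent ℝ ![u, v]) : ∃ α β : ℝ, n = α • u + β • v := by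
  have h1 : Submodule.span ℝ {u, v} = Submodule.span ℝ {a, x} := by
    apply Submodule.eq_of_le_of_finrank_le
    · rw [Submodule.span_le]
      rintro z (rfl | rfl)
      · exact hu
      · exact hv
    · have h2 : Module.finrank ℝ (Submodule.span ℝ ({a, x} : Set E)) ≤ 2 := by
        classical
        have h3 := finrank_span_le_card (R := ℝ) ({a, x} : Set E)
        refine h3.trans ?_
        rw [Set.toFinset_card]
        have h4 := Set.ncard_insert_le a ({x} : Set E)
        rw [Set.ncard_singleton] at h4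
        rw [← Nat.card_eq_fintype_card]
        exact h4
      have h5 : Module.finrank ℝ (Submodule.span ℝ ({u, v} : Set E)) = 2 := by
        have h6 := finrank_span_eq_card h
        rw [Matrix.range_cons, Matrix.range_cons, Matrix.range_empty, Set.union_empty,
          Set.singleton_union] at h6
        rw [h6]
        simp
      rw [h5]
      exact h2
  rw [← h1, Submodule.mem_span_pair] at hn
  obtain ⟨α, β, h3⟩ := hn
  exact ⟨α, β, h3.symm⟩

/-- the facet normals in the plane of a symmetric belt -/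
theorem belt_normals [FiniteDimensional ℝ E] {y0 a x : E} (hy : y0 ∈ P.body) (hax : a ≠ x)
    (hact : P.act y0 = {a, x}) (hB : Belt P a y0) :
    ∃ b w : E, -a ∈ P.N ∧ b ∈ P.N ∧ -b ∈ P.N ∧ w ∈ P.N ∧ -w ∈ P.N ∧
      ∀ n ∈ P.N, n ∈ Submodule.span ℝ {a, x} →
        n = a ∨ n = -a ∨ n = b ∨ n = -b ∨ n = w ∨ n = -w := by
  have hpl : ∀ {u v : E}, Fl P y0 u v → u ∈ Submodule.span ℝ {a, x} ∧ v ∈ Submodule.span ℝ {a, x} := by
    intro u v hf
    exact ⟨span_of_perp fun g h1 h2 => (fl_perp hy hact h1 h2 hf).1,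
      span_of_perp fun g h1 h2 => (fl_perp hy hact h1 h2 hf).2⟩
  rcases hB with ⟨b, f1, f2, f3, f4⟩ | ⟨b, w, f1, f2, f3, f4, f5, f6⟩
  · obtain ⟨y1, hy1, -, a1, b1, haN, hbN, hli⟩ := fl_data f1
    obtain ⟨y2, hy2, -, b2, na2, -, hnaN, -⟩ := fl_data f2
    obtain ⟨y3, hy3, -, na3, nb3, -, hnbN, -⟩ := fl_data f3
    obtain ⟨y4, hy4, -, nb4, a4, -, -, -⟩ := fl_data f4
    refine ⟨b, b, hnaN, hbN, hnbN, hbN, hnbN, ?_⟩
    intro n hn hnpl
    obtain ⟨α, β, h⟩ := coord_of_span (hpl f1).1 (hpl f1).2 hnpl hli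
    rcases le_total 0 α with hα | hα <;> rcases le_total 0 β with hβ | hβ
    · rcases mem_cone hy1 a1 b1 hn hα hβ h with h' | h' <;> simp [h']
    · rcases mem_cone hy4 a4 nb4 hn hα (neg_nonneg.2 hβ) (by rw [h, smul_neg, neg_smul, neg_neg])
        with h' | h' <;> simp [h']
    · rcases mem_cone hy2 na2 b2 hn (neg_nonneg.2 hα) hβ (by rw [h, smul_neg, neg_smul, neg_neg])
        with h' | h' <;> simp [h']
    · rcases mem_cone hy3 na3 nb3 hn (neg_nonneg.2 hα) (neg_nonneg.2 hβ)
        (by rw [h, smul_neg, neg_smul, neg_neg, smul_neg, neg_smul, neg_neg]) with h' | h' <;>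
        simp [h']
  · obtain ⟨y1, hy1, -, a1, b1, haN, hbN, hab⟩ := fl_data f1
    obtain ⟨y2, hy2, -, b2, w2, -, hwN, hbw⟩ := fl_data f2
    obtain ⟨y3, hy3, -, w3, na3, -, hnaN, hwna⟩ := fl_data f3
    obtain ⟨y4, hy4, -, na4, nb4, -, hnbN, hnab⟩ := fl_data f4
    obtain ⟨y5, hy5, -, nb5, nw5, -, hnwN, hnbw⟩ := fl_data f5
    obtain ⟨y6, hy6, -, nw6, a6, -, -, hnwa⟩ := fl_data f6
    have hwa : LinearIndependent ℝ ![w, a] := by
      rw [LinearIndependent.pair_iff] at hwna ⊢
      intro s t hst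
      have h1 := hwna s (-t) (by rw [neg_smul, smul_neg, neg_neg]; exact hst)
      exact ⟨h1.1, by linarith [h1.2]⟩
    have hcoord : ∀ n ∈ Submodule.span ℝ {a, x}, ∃ α β : ℝ, n = α • w + β • a := fun n hn =>
      coord_of_span (hpl f6 |>.1 |> fun h => by simpa using Submodule.neg_mem _ h) (hpl f1).1 hn hwa
    obtain ⟨μ, l, hb⟩ := hcoord b (hpl f1).2
    have hl : 0 < l ∧ 0 < μ := by
      have c1 : ¬ (0 ≤ l ∧ μ ≤ 0) := by
        rintro ⟨h1, h2⟩
        rcases mem_cone hy6 a6 nw6 hbN h1 (neg_nonneg.2 h2)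
          (by rw [hb, smul_neg, neg_smul, neg_neg, add_comm]) with h' | h'
        · exact pne hab h'.symm
        · exact pnn hbw h'
      have c2 : ¬ (l ≤ 0 ∧ 0 ≤ μ) := by
        rintro ⟨h1, h2⟩
        rcases mem_cone hy3 w3 na3 hbN h2 (neg_nonneg.2 h1)
          (by rw [hb, smul_neg, neg_smul, neg_neg]) with h' | h'
        · exact pne hbw h'
        · exact pnn hab (by rw [h', neg_neg])
      have c3 : ¬ (l < 0 ∧ μ < 0) := by
        rintro ⟨h1, h2⟩
        have e1 : -w = (l / μ) • a + (-(1 / μ)) • b := by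
          rw [hb, smul_add, smul_smul, smul_smul]
          have e2 : -(1 / μ) * μ = -1 := by rw [neg_mul, one_div, inv_mul_cancel₀ h2.ne]
          have e3 : -(1 / μ) * l = -(l / μ) := by ring
          rw [e2, e3, neg_smul, neg_smul, one_smul]
          abel
        rcases mem_cone hy1 a1 b1 hnwN (div_nonneg_of_nonpos h1.le h2.le)
          (by rw [neg_nonneg]; exact div_nonpos_of_nonneg_of_nonpos zero_le_one h2.le) e1 with h' | h'
        · exact pne hnwa h'
        · exact pnn hbw h'.symm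
      rcases lt_trichotomy l 0 with h1 | h1 | h1 <;> rcases lt_trichotomy μ 0 with h2 | h2 | h2
      · exact absurd ⟨h1, h2⟩ c3
      · exact absurd ⟨h1.le, h2.ge⟩ c2
      · exact absurd ⟨h1.le, h2.le⟩ c2
      · exact absurd ⟨h1.ge, h2.le⟩ c1
      · exact absurd ⟨h1.ge, h2.le⟩ c1
      · exact absurd ⟨h1.le, h2.le⟩ c2
      · exact absurd ⟨h1.le, h2.le⟩ c1
      · exact absurd ⟨h1.le, h2.le⟩ c1
      · exact ⟨h1, h2⟩
    obtain ⟨hl, hμ⟩ := hl
    refine ⟨b, w, hnaN, hbN, hnbN, hwN, hnwN, ?_⟩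
    intro n hn hnpl
    obtain ⟨β, α, h⟩ := hcoord n hnpl
    have quad : ∀ α β : ℝ, 0 ≤ α → 0 ≤ β → (∃ s t : ℝ, 0 ≤ s ∧ 0 ≤ t ∧ β • w + α • a = s • a + t • b) ∨
        ∃ s t : ℝ, 0 ≤ s ∧ 0 ≤ t ∧ β • w + α • a = s • b + t • w := by
      intro α β hα hβ
      rcases le_total (β * l) (α * μ) with hc | hc
      · left
        refine ⟨α - β * l / μ, β / μ, ?_, by positivity, ?_⟩
        · rw [sub_nonneg, div_le_iff₀ hμ]; exact hc
        · rw [hb, smul_add, smul_smul, smul_smul]
          have e1 : β / μ * μ = β := by field_simp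
          have e2 : β / μ * l = β * l / μ := by ring
          rw [e1, e2, sub_smul]
          abel
      · right
        refine ⟨α / l, β - α * μ / l, by positivity, ?_, ?_⟩
        · rw [sub_nonneg, div_le_iff₀ hl]; exact hc
        · rw [hb, smul_add, smul_smul, smul_smul]
          have e1 : α / l * l = α := by field_simp
          have e2 : α / l * μ = α * μ / l := by ring
          rw [e1, e2, sub_smul]
          abel
    rcases le_total 0 α with hα | hα <;> rcases le_total 0 β with hβ | hβ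
    · rcases quad α β hα hβ with ⟨s, t, hs, ht, e⟩ | ⟨s, t, hs, ht, e⟩
      · rcases mem_cone hy1 a1 b1 hn hs ht (h.trans e) with h' | h' <;> simp [h']
      · rcases mem_cone hy2 b2 w2 hn hs ht (h.trans e) with h' | h' <;> simp [h']
    · rcases mem_cone hy6 a6 nw6 hn hα (neg_nonneg.2 hβ)
        (by rw [h, smul_neg, neg_smul, neg_neg, add_comm]) with h' | h' <;> simp [h']
    · rcases mem_cone hy3 w3 na3 hn hβ (neg_nonneg.2 hα)
        (by rw [h, smul_neg, neg_smul, neg_neg]) with h' | h' <;> simp [h']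
    · rcases quad (-α) (-β) (neg_nonneg.2 hα) (neg_nonneg.2 hβ) with
        ⟨s, t, hs, ht, e⟩ | ⟨s, t, hs, ht, e⟩
      · have e' : n = s • (-a) + t • (-b) := by
          rw [smul_neg, smul_neg, ← neg_add, ← e, h, neg_smul, neg_smul]
          abel
        rcases mem_cone hy4 na4 nb4 hn hs ht e' with h' | h' <;> simp [h']
      · have e' : n = s • (-b) + t • (-w) := by
          rw [smul_neg, smul_neg, ← neg_add, ← e, h, neg_smul, neg_smul]
          abel
        rcases mem_cone hy5 nb5 nw5 hn hs ht e' with h' | h' <;> simp [h']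

/-- the belt of a facet that varies consists of 2 or 3 pairs of opposite facets -/
theorem belt_sym [FiniteDimensional ℝ E] {y0 a x : E} (hy : y0 ∈ P.body) (hax : a ≠ x)
    (hact : P.act y0 = {a, x}) (hB : Belt P a y0) :
    (∀ n ∈ P.N, n ∈ Submodule.span ℝ {a, x} → -n ∈ P.N) ∧
      {n | n ∈ P.N ∧ n ∈ Submodule.span ℝ {a, x}}.ncard ≤ 6 := by
  have haN : a ∈ P.N := by
    have : a ∈ P.act y0 := by rw [hact]; simp
    exact this.1
  obtain ⟨b, w, h1, h2, h3, h4, h5, h6⟩ := belt_normals hy hax hact hB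
  constructor
  · intro n hn hnpl
    rcases h6 n hn hnpl with h | h | h | h | h | h <;> rw [h] <;> first | assumption | (rw [neg_neg]; assumption)
  · have hsub : {n | n ∈ P.N ∧ n ∈ Submodule.span ℝ {a, x}} ⊆ {a, -a, b, -b, w, -w} := by
      rintro n ⟨hn, hnpl⟩
      simpa using h6 n hn hnpl
    refine (Set.ncard_le_ncard hsub (by simp)).trans ?_
    refine (Set.ncard_insert_le _ _).trans ?_
    refine Nat.succ_le_succ ((Set.ncard_insert_le _ _).trans ?_)
    refine Nat.succ_le_succ ((Set.ncard_insert_le _ _).trans ?_)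
    refine Nat.succ_le_succ ((Set.ncard_insert_le _ _).trans ?_)
    refine Nat.succ_le_succ ((Set.ncard_insert_le _ _).trans ?_)
    rw [Set.ncard_singleton]

end Pool.FF79
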