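import Pool.Agent.FF24.Defs

/-! FF79/Fin: the tilings of the final statement. -/

set_option autoImplicit false

open Set Metric
open scoped RealInnerProductSpace

namespace Pool.FF79

open Pool.FF24

variable {E : Type*} [NormedAddCommGroup E] [InnerProductSpace ℝ E]

/-- `T` is a (coherent facet-to-facet) tiling by the tiles `e • P + t`, `(e, t) ∈ T`, `e = ± 1`: the
tiles cover the space, tiles with different labels have disjoint interiors, and behind every facet `u`
of every tile there is another tile which has this facet as a facet and has the opposite sign if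
`u ∈ I` and the same sign if `u ∉ I`. -/
structure IsTiling (P : HPoly E) (I : Set E) (T : Set (ℝ × E)) : Prop where
  sign : ∀ τ ∈ T, τ.1 = 1 ∨ τ.1 = -1
  cover : ∀ x : E, ∃ τ ∈ T, x ∈ X τ '' P.body
  disj : ∀ τ ∈ T, ∀ σ ∈ T, τ ≠ σ →
    Disjoint (interior (X τ '' P.body)) (interior (X σ '' P.body))
  facet : ∀ τ ∈ T, ∀ u ∈ P.N, ∃ σ ∈ T, σ ≠ τ ∧
    ((u ∈ I ∧ σ.1 = -τ.1) ∨ (u ∉ I ∧ σ.1 = τ.1)) ∧ ∃ v ∈ P.N, X σ '' P.fc v = X τ '' P.fc u

end Pool.FF79
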