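import Pool.Agent.FF79.Fin
import Pool.Agent.FF24.Basic

/-! FF79/NecC: the tiles of the orbit of `(1, 0)` do not overlap. -/

set_option autoImplicit false

open Set Metric
open scoped RealInnerProductSpace

namespace Pool.FF79

open Pool.FF24

variable {E : Type*} [NormedAddCommGroup E] [InnerProductSpace ℝ E]

/-- composition of labels (for the proof of `orb_disj`) -/
def cmpC (μ τ : ℝ × E) : ℝ × E := (μ.1 * τ.1, μ.1 • τ.2 + μ.2)

theorem cmpC_nb {P : HPoly E} (g : Glue P) (μ τ : ℝ × E) (u : E) :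
    cmpC μ (g.nb u τ) = g.nb u (cmpC μ τ) := by
  by_cases h : u ∈ g.I
  · have e : ∀ σ : ℝ × E, g.nb u σ = (-σ.1, σ.2 + σ.1 • g.c u) := fun σ => if_pos h
    rw [e, e]
    refine Prod.ext ?_ ?_
    · change μ.1 * -τ.1 = -(μ.1 * τ.1)
      ring
    · change μ.1 • (τ.2 + τ.1 • g.c u) + μ.2 = μ.1 • τ.2 + μ.2 + (μ.1 * τ.1) • g.c u
      rw [smul_add, smul_smul]
      abel
  · have e : ∀ σ : ℝ × E, g.nb u σ = (σ.1, σ.2 - σ.1 • g.c u) := fun σ => if_neg h
    rw [e, e]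
    refine Prod.ext rfl ?_
    change μ.1 • (τ.2 - τ.1 • g.c u) + μ.2 = μ.1 • τ.2 + μ.2 - (μ.1 * τ.1) • g.c u
    rw [smul_sub, smul_smul]
    abel

theorem cmpC_inj {μ τ σ : ℝ × E} (hμ : μ.1 = 1 ∨ μ.1 = -1) (h : cmpC μ τ = cmpC μ σ) : τ = σ := by
  have h1 : μ.1 * τ.1 = μ.1 * σ.1 := congrArg Prod.fst h
  have h2 : μ.1 • τ.2 + μ.2 = μ.1 • σ.2 + μ.2 := congrArg Prod.snd h
  have h3 := add_right_cancel h2
  have h0 : μ.1 ≠ 0 := by rcases hμ with h | h <;> rw [h] <;> norm_num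
  exact Prod.ext (mul_left_cancel₀ h0 h1) (smul_right_injective E h0 h3)

theorem cmpC_X (μ τ : ℝ × E) (z : E) : X (cmpC μ τ) z = X μ (X τ z) := by
  change (μ.1 * τ.1) • z + (μ.1 • τ.2 + μ.2) = μ.1 • (τ.1 • z + τ.2) + μ.2
  rw [smul_add, smul_smul, add_assoc]

theorem cmpC_interior {μ : ℝ × E} (hμ : μ.1 = 1 ∨ μ.1 = -1) {S : Set E} {p : E}
    (hp : p ∈ interior S) : X μ p ∈ interior (X μ '' S) := by
  have hopen : IsOpen {q : E | crd μ q ∈ interior S} := by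
    refine isOpen_interior.preimage ?_
    unfold crd
    fun_prop
  have hsub : {q : E | crd μ q ∈ interior S} ⊆ X μ '' S := by
    intro q hq
    exact ⟨crd μ q, interior_subset hq, X_crd hμ q⟩
  refine interior_maximal hsub hopen ?_
  change crd μ (X μ p) ∈ interior S
  rw [crd_X hμ]
  exact hp

theorem orb_disj_S (P : HPoly E) {I : Set E} {T : Set (ℝ × E)} (hT : IsTiling P I T) (g : Glue P)
    (hnb : ∀ τ ∈ T, ∀ u ∈ P.N, g.nb u τ ∈ T) :
    ∀ τ σ : ℝ × E, g.Orb τ → g.Orb σ → τ ≠ σ →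
      Disjoint (interior (X τ '' P.body)) (interior (X σ '' P.body)) := by
  intro τ σ hτ hσ hne
  obtain ⟨τ₀, h0, -⟩ := hT.cover 0
  have hs := hT.sign τ₀ h0
  have hmem : ∀ ρ : ℝ × E, g.Orb ρ → cmpC τ₀ ρ ∈ T := by
    intro ρ hρ
    induction hρ with
    | base =>
      have e : cmpC τ₀ ((1 : ℝ), (0 : E)) = τ₀ := by
        refine Prod.ext ?_ ?_
        · change τ₀.1 * 1 = τ₀.1
          ring
        · change τ₀.1 • (0 : E) + τ₀.2 = τ₀.2
          rw [smul_zero, zero_add]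
      rw [e]
      exact h0
    | @step ρ u _ hu ih =>
      rw [cmpC_nb]
      exact hnb _ ih u hu
  have hd := hT.disj _ (hmem τ hτ) _ (hmem σ hσ) (fun h => hne (cmpC_inj hs h))
  rw [Set.disjoint_left]
  intro p hp hp'
  have him : ∀ ρ : ℝ × E, X (cmpC τ₀ ρ) '' P.body = X τ₀ '' (X ρ '' P.body) := by
    intro ρ
    rw [Set.image_image]
    exact Set.image_congr fun z _ => cmpC_X τ₀ ρ z
  rw [him, him] at hd
  exact Set.disjoint_left.1 hd (cmpC_interior hs hp) (cmpC_interior hs hp')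

end Pool.FF79
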