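import Pool.Agent.FF79.Fin
import Pool.Agent.FF79.NecC82

/-! FF79/NecC: the tiles of the orbit of `(1, 0)` do not overlap. -/

set_option autoImplicit false

open Set Metric
open scoped RealInnerProductSpace

namespace Pool.FF79

open Pool.FF24

variable {E : Type*} [NormedAddCommGroup E] [InnerProductSpace ℝ E]

/-- Let `T` be a tiling that is closed under all `nb`. Then different labels of the orbit of `(1, 0)`
have tiles with disjoint interiors. (Take `τ₀ ∈ T`; composition with `τ₀` maps the orbit into `T`: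
`nb u (τ₀ ∘ τ) = τ₀ ∘ nb u τ`, where `τ₀ ∘ τ = (τ₀.1 * τ.1, τ₀.1 • τ.2 + τ₀.2)`.) -/
theorem orb_disj (P : HPoly E) {I : Set E} {T : Set (ℝ × E)} (hT : IsTiling P I T) (g : Glue P)
    (hI : g.I = I) (hnb : ∀ τ ∈ T, ∀ u ∈ P.N, g.nb u τ ∈ T) :
    ∀ τ σ : ℝ × E, g.Orb τ → g.Orb σ → τ ≠ σ →
      Disjoint (interior (X τ '' P.body)) (interior (X σ '' P.body)) :=
  orb_disj_S P hT g hnb

end Pool.FF79
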