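import Mathlib

/-! FF79/NecP: the plane part of the necessity (pure reals). -/

set_option autoImplicit false

namespace Pool.FF79

/-- the sign changes of a sequence of nonzero reals: descents, and ascents by the end values -/
theorem changes_key (f : ℕ → ℝ) (hf : ∀ r, f r ≠ 0) (k : ℕ) :
    ((Finset.range k).filter fun r => f r * f (r + 1) < 0).card +
      (if 0 < f 0 then 1 else 0) =
      2 * ((Finset.range k).filter fun r => 0 < f r ∧ f (r + 1) < 0).card +
      (if 0 < f k then 1 else 0) := by
  induction k with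
  | zero => simp
  | succ k ih =>
    rw [Finset.range_add_one, Finset.filter_insert, Finset.filter_insert]
    have hk1 : k ∉ (Finset.range k).filter fun r => f r * f (r + 1) < 0 := by simp
    have hk2 : k ∉ (Finset.range k).filter fun r => 0 < f r ∧ f (r + 1) < 0 := by simp
    rcases lt_or_gt_of_ne (hf k) with h1 | h1 <;>
      rcases lt_or_gt_of_ne (hf (k + 1)) with h2 | h2
    · have e1 : ¬ (f k * f (k + 1) < 0) := by nlinarith
      have e2 : ¬ (0 < f k ∧ f (k + 1) < 0) := fun h => absurd h.1 (not_lt.mpr h1.le)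
      rw [if_neg e1, if_neg e2, ih, if_neg (not_lt.mpr h1.le), if_neg (not_lt.mpr h2.le)]
    · have e1 : f k * f (k + 1) < 0 := mul_neg_of_neg_of_pos h1 h2
      have e2 : ¬ (0 < f k ∧ f (k + 1) < 0) := fun h => absurd h.1 (not_lt.mpr h1.le)
      rw [if_pos e1, if_neg e2, Finset.card_insert_of_notMem hk1, if_pos h2]
      rw [if_neg (not_lt.mpr h1.le)] at ih
      omega
    · have e1 : f k * f (k + 1) < 0 := mul_neg_of_pos_of_neg h1 h2
      have e2 : (0 < f k ∧ f (k + 1) < 0) := ⟨h1, h2⟩
      rw [if_pos e1, if_pos e2, Finset.card_insert_of_notMem hk1,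
        Finset.card_insert_of_notMem hk2, if_neg (not_lt.mpr h2.le)]
      rw [if_pos h1] at ih
      omega
    · have e1 : ¬ (f k * f (k + 1) < 0) := by nlinarith
      have e2 : ¬ (0 < f k ∧ f (k + 1) < 0) := fun h => absurd h.2 (not_lt.mpr h2.le)
      rw [if_neg e1, if_neg e2, ih, if_pos h1, if_pos h2]

/-- cyclic sequences of nonzero reals: the number of the sign changes is twice the number of the
descents -/
theorem changes_eq (k : ℕ) (f : ℕ → ℝ) (hf : ∀ r, f r ≠ 0) (hk : 0 < f k ↔ 0 < f 0) :
    ((Finset.range k).filter fun r => f r * f (r + 1) < 0).card =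
      2 * ((Finset.range k).filter fun r => 0 < f r ∧ f (r + 1) < 0).card := by
  have h := changes_key f hf k
  by_cases h0 : 0 < f 0
  · rw [if_pos h0, if_pos (hk.mpr h0)] at h
    omega
  · rw [if_neg h0, if_neg (fun h' => h0 (hk.mp h'))] at h
    omega

/-- THE COUNT. Vectors `e r = (p r, q r)` of the plane (normals of the walls between the tiles around a
ridge), `det (e r, e (r+1)) > 0`; signs `ε r`; the own flags `(-ε r e r, ε r e (r+1))` have period `m`, `e`
has period `m` if `ε m = 1` and `e (r+m) = - e r` if `ε m = -1`. `hcone`: the open cones of different flags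
are disjoint. `hW`: the open wedges `{x | <e r, x> > 0 > <e (r+1), x>}` of different tiles are disjoint.
Then `m ≤ 4`, and `m = 4` only if `ε 4 = 1`.
Proof: choose `x = (X, Y)` with `f r = <e r, x> ≠ 0` for all `r` (finitely many conditions). With `k = m`
or `2 m` the period of the tiles: at most one descent by `hW`, so at most 2 sign changes (`changes_eq`).
If `f r * f (r+1) > 0` then the vector `z = |f (r+1)| (- ε r e r) + |f r| (ε r e (r+1))` of the open cone of
the flag is orthogonal to `x`, so `z` is a positive or negative multiple of `(Y, -X)`; by `hcone` at most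
two `r < m` have this property. So `k ≤ 2 + 2 (k / m)`. -/
theorem planeNec (m : ℕ) (hm : 0 < m) (p q ε : ℕ → ℝ) (hε : ∀ r, ε r = 1 ∨ ε r = -1)
    (hε0 : ε 0 = 1)
    (hD : ∀ r, 0 < p r * q (r + 1) - p (r + 1) * q r)
    (hper : ∀ r, ε (r + m) = ε m * ε r ∧ p (r + m) = ε m * p r ∧ q (r + m) = ε m * q r)
    (hcone : ∀ r < m, ∀ s < m, r ≠ s → ∀ α β γ δ : ℝ, 0 < α → 0 < β → 0 < γ → 0 < δ →
      ¬ (ε r * (-α * p r + β * p (r + 1)) = ε s * (-γ * p s + δ * p (s + 1)) ∧
        ε r * (-α * q r + β * q (r + 1)) = ε s * (-γ * q s + δ * q (s + 1))))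
    (hW : ∀ r s, r < s → (s < m ∨ (ε m = -1 ∧ s < 2 * m)) → ∀ X Y : ℝ,
      ¬ (0 < p r * X + q r * Y ∧ p (r + 1) * X + q (r + 1) * Y < 0 ∧
        0 < p s * X + q s * Y ∧ p (s + 1) * X + q (s + 1) * Y < 0)) :
    m ≤ 4 ∧ (m = 4 → ε 4 = 1) := by
  -- a generic vector
  obtain ⟨Y, hY⟩ := ((Set.countable_range (fun r : ℕ => -p r / q r)).dense_compl ℝ).nonempty
  have hf : ∀ r, p r * 1 + q r * Y ≠ 0 := by
    intro r h
    by_cases hq : q r = 0
    · have h1 := hD r
      have hp : p r = 0 := by rw [hq] at h; linarith
      rw [hq, hp] at h1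
      simp at h1
    · apply hY
      refine ⟨r, ?_⟩
      show -p r / q r = Y
      rw [div_eq_iff hq]
      linarith
  set f : ℕ → ℝ := fun r => p r * 1 + q r * Y with hfdef
  have hfm : ∀ r, f (r + m) = ε m * f r := by
    intro r
    simp only [hfdef]
    rw [(hper r).2.1, (hper r).2.2]
    ring
  -- the combination of the two normals that is orthogonal to the vector
  have comb : ∀ r, ∀ t : ℝ, t * t = 1 →
      ε r * (-(t * ε r * f (r + 1) / (p r * q (r + 1) - p (r + 1) * q r)) * p r +
        (t * ε r * f r / (p r * q (r + 1) - p (r + 1) * q r)) * p (r + 1)) = -(t * Y) ∧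
      ε r * (-(t * ε r * f (r + 1) / (p r * q (r + 1) - p (r + 1) * q r)) * q r +
        (t * ε r * f r / (p r * q (r + 1) - p (r + 1) * q r)) * q (r + 1)) = t := by
    intro r t _
    have hD' := hD r
    have hD0 : p r * q (r + 1) - p (r + 1) * q r ≠ 0 := hD'.ne'
    have he : ε r * ε r = 1 := by rcases hε r with h | h <;> rw [h] <;> norm_num
    constructor
    · have : ε r * (-(t * ε r * f (r + 1) / (p r * q (r + 1) - p (r + 1) * q r)) * p r +
        (t * ε r * f r / (p r * q (r + 1) - p (r + 1) * q r)) * p (r + 1)) =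
          (ε r * ε r) * t * (-(f (r + 1) * p r) + f r * p (r + 1)) /
            (p r * q (r + 1) - p (r + 1) * q r) := by
        field_simp
      rw [this, he, div_eq_iff hD0]
      simp only [hfdef]
      ring
    · have : ε r * (-(t * ε r * f (r + 1) / (p r * q (r + 1) - p (r + 1) * q r)) * q r +
        (t * ε r * f r / (p r * q (r + 1) - p (r + 1) * q r)) * q (r + 1)) =
          (ε r * ε r) * t * (-(f (r + 1) * q r) + f r * q (r + 1)) /
            (p r * q (r + 1) - p (r + 1) * q r) := by
        field_simp
      rw [this, he, div_eq_iff hD0]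
      simp only [hfdef]
      ring
  have pair : ∀ r s, r < m → s < m → r ≠ s → ∀ t : ℝ, t * t = 1 → 0 < t * ε r * f r →
      0 < t * ε r * f (r + 1) → 0 < t * ε s * f s → 0 < t * ε s * f (s + 1) → False := by
    intro r s hr hs hrs t ht h1 h2 h3 h4
    refine hcone r hr s hs hrs _ _ _ _ (div_pos h2 (hD r)) (div_pos h1 (hD r))
      (div_pos h4 (hD s)) (div_pos h3 (hD s)) ⟨?_, ?_⟩
    · rw [(comb r t ht).1, (comb s t ht).1]
    · rw [(comb r t ht).2, (comb s t ht).2]
  -- at most two steps without a change in a period of the flags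
  set B := (Finset.range m).filter fun r => ¬ f r * f (r + 1) < 0 with hB
  have same : ∀ r, ¬ f r * f (r + 1) < 0 → ∀ t : ℝ, 0 < t * ε r * f r → 0 < t * ε r * f (r + 1) := by
    intro r hr t h
    have h1 : 0 < f r * f (r + 1) :=
      lt_of_le_of_ne (not_lt.mp hr) (mul_ne_zero (hf r) (hf (r + 1))).symm
    have h2 : 0 < (t * ε r * f r) * (f r * f (r + 1)) := mul_pos h h1
    have h3 : 0 < f r * f r := mul_self_pos.mpr (hf r)
    by_contra h4
    push Not at h4
    nlinarith
  have hBcard : B.card ≤ 2 := by
    have h1 : ((B.filter fun r => 0 < ε r * f r).card) ≤ 1 := by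
      rw [Finset.card_le_one]
      intro r hr s hs
      by_contra hne
      rw [Finset.mem_filter, hB, Finset.mem_filter, Finset.mem_range] at hr hs
      have e1 : 0 < (1 : ℝ) * ε r * f r := by rw [one_mul]; exact hr.2
      have e2 : 0 < (1 : ℝ) * ε s * f s := by rw [one_mul]; exact hs.2
      exact pair r s hr.1.1 hs.1.1 hne 1 (by norm_num) e1 (same r hr.1.2 1 e1) e2
        (same s hs.1.2 1 e2)
    have h2 : ((B.filter fun r => ¬ 0 < ε r * f r).card) ≤ 1 := by
      rw [Finset.card_le_one]
      intro r hr s hs
      by_contra hne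
      rw [Finset.mem_filter, hB, Finset.mem_filter, Finset.mem_range] at hr hs
      have neg : ∀ i, ¬ 0 < ε i * f i → 0 < (-1 : ℝ) * ε i * f i := by
        intro i hi
        have h3 : ε i * f i ≠ 0 := mul_ne_zero
          (by rcases hε i with h | h <;> rw [h] <;> norm_num) (hf i)
        have h4 := lt_of_le_of_ne (not_lt.mp hi) h3
        have h5 : (-1 : ℝ) * ε i * f i = -(ε i * f i) := by ring
        rw [h5]
        linarith
      have e1 := neg r hr.2
      have e2 := neg s hs.2
      exact pair r s hr.1.1 hs.1.1 hne (-1) (by norm_num) e1 (same r hr.1.2 _ e1) e2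
        (same s hs.1.2 _ e2)
    have h3 := Finset.card_filter_add_card_filter_not (s := B) (fun r => 0 < ε r * f r)
    omega
  have hsplit := Finset.card_filter_add_card_filter_not (s := Finset.range m)
    (fun r => f r * f (r + 1) < 0)
  rw [Finset.card_range, ← hB] at hsplit
  have hdesc : ∀ k, k ≤ m ∨ (ε m = -1 ∧ k ≤ 2 * m) →
      ((Finset.range k).filter fun r => 0 < f r ∧ f (r + 1) < 0).card ≤ 1 := by
    intro k hk
    rw [Finset.card_le_one]
    have main : ∀ r s, r < s → s < k → (0 < f r ∧ f (r + 1) < 0) → (0 < f s ∧ f (s + 1) < 0) →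
        False := by
      intro r s hrs hs h1 h2
      refine hW r s hrs ?_ 1 Y ⟨h1.1, h1.2, h2.1, h2.2⟩
      rcases hk with hk | ⟨hk1, hk2⟩
      · exact Or.inl (by omega)
      · exact Or.inr ⟨hk1, by omega⟩
    intro r hr s hs
    rw [Finset.mem_filter, Finset.mem_range] at hr hs
    rcases lt_trichotomy r s with h | h | h
    · exact (main r s h hs.1 hr.2 hs.2).elim
    · exact h
    · exact (main s r h hr.1 hs.2 hr.2).elim
  rcases hε m with h1 | h1
  · have hc := changes_eq m f hf (by
      have := hfm 0
      rw [zero_add, h1, one_mul] at this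
      rw [this])
    have hd := hdesc m (Or.inl le_rfl)
    refine ⟨by omega, fun h4 => ?_⟩
    rw [← h4]
    exact h1
  · have hm0 : f m = -f 0 := by
      have := hfm 0
      rw [zero_add, h1] at this
      rw [this]; ring
    have h2m : f (2 * m) = f 0 := by
      have := hfm m
      rw [h1, hm0] at this
      rw [two_mul, this]; ring
    have hc := changes_eq (2 * m) f hf (by rw [h2m])
    have hd := hdesc (2 * m) (Or.inr ⟨h1, le_rfl⟩)
    have hle : ((Finset.range m).filter fun r => f r * f (r + 1) < 0).card ≤
        ((Finset.range (2 * m)).filter fun r => f r * f (r + 1) < 0).card :=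
      Finset.card_le_card (Finset.filter_subset_filter _ (Finset.range_subset_range.mpr (by omega)))
    have hk := changes_key f hf m
    rw [hm0] at hk
    have hodd : ((Finset.range m).filter fun r => f r * f (r + 1) < 0).card % 2 = 1 := by
      rcases lt_or_gt_of_ne (hf 0) with h0 | h0
      · rw [if_neg (not_lt.mpr h0.le), if_pos (by linarith : 0 < -f 0)] at hk
        omega
      · rw [if_pos h0, if_neg (by linarith : ¬ 0 < -f 0)] at hk
        omega
    exact ⟨by omega, fun h4 => by omega⟩

/-- a sequence in a finite set whose steps are injective and functional is periodic -/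
theorem min_period {α : Type*} (a : ℕ → α) (R : α → α → Prop) (ha : ∀ r, R (a r) (a (r + 1)))
    (hfun : ∀ x y z, R x y → R x z → y = z) (hinj : ∀ x y z, R x z → R y z → x = y)
    (hfin : (Set.range a).Finite) :
    ∃ m, 0 < m ∧ (∀ r, a (r + m) = a r) ∧ ∀ r < m, ∀ s < m, a r = a s → r = s := by
  classical
  have back : ∀ r d, a r = a (r + d) → a 0 = a d := by
    intro r
    induction r with
    | zero => intro d h; rwa [zero_add] at h
    | succ r ih =>
      intro d h
      apply ih
      have h1 := ha r
      have h2 := ha (r + d)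
      rw [show r + d + 1 = r + 1 + d by ring, ← h] at h2
      exact hinj _ _ _ h1 h2
  have hex : ∃ m, 0 < m ∧ a m = a 0 := by
    have hni : ¬ Function.Injective a := fun h =>
      Set.infinite_range_of_injective h hfin
    rw [Function.Injective] at hni
    push Not at hni
    obtain ⟨r, s, hrs, hne⟩ := hni
    rcases lt_or_gt_of_ne hne with h | h
    · refine ⟨s - r, by omega, (back r (s - r) ?_).symm⟩
      rw [hrs]; congr 1; omega
    · refine ⟨r - s, by omega, (back s (r - s) ?_).symm⟩
      rw [← hrs]; congr 1; omega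
  refine ⟨Nat.find hex, (Nat.find_spec hex).1, ?_, ?_⟩
  · intro r
    induction r with
    | zero => rw [zero_add]; exact (Nat.find_spec hex).2
    | succ r ih =>
      have h1 := ha r
      have h2 := ha (r + Nat.find hex)
      rw [ih] at h2
      rw [show r + 1 + Nat.find hex = r + Nat.find hex + 1 by ring]
      exact hfun _ _ _ h2 h1
  · have main : ∀ r s, r < s → s < Nat.find hex → a r ≠ a s := by
      intro r s hrs hs h
      have h1 : a 0 = a (s - r) := back r (s - r) (by rw [h]; congr 1; omega)
      exact Nat.find_min hex (m := s - r) (by omega) ⟨by omega, h1.symm⟩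
    intro r hr s hs h
    rcases lt_trichotomy r s with h1 | h1 | h1
    · exact absurd h (main r s h1 hs)
    · exact h1
    · exact absurd h.symm (main s r h1 hr)

end Pool.FF79
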