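import Pool.Agent.FF79.NecB
import Pool.Agent.FF79.NecC
import Pool.Agent.FF79.NecE
import Pool.Agent.FF79.NecP

/-! FF79/Nec: assembly of the necessity. -/

set_option autoImplicit false

open Set Metric
open scoped RealInnerProductSpace

namespace Pool.FF79

open Pool.FF24

variable {E : Type*} [NormedAddCommGroup E] [InnerProductSpace ℝ E] [FiniteDimensional ℝ E]
  {P : HPoly E}

theorem pair_coords {E : Type*} [NormedAddCommGroup E] [InnerProductSpace ℝ E] {e f : E}
    (h : LinearIndependent ℝ ![e, f]) {s t s' t' : ℝ}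
    (hs : s • e + t • f = s' • e + t' • f) : s = s' ∧ t = t' := by
  have h1 := (LinearIndependent.pair_iff.1 h) (s - s') (t - t') (by
    have : (s - s') • e + (t - t') • f = (s • e + t • f) - (s' • e + t' • f) := by
      rw [sub_smul, sub_smul]; abel
    rw [this, hs, sub_self])
  exact ⟨sub_eq_zero.1 h1.1, sub_eq_zero.1 h1.2⟩

theorem even_card_two (s : ℕ → Prop) [DecidablePred s] (h2 : s 2 ↔ s 0) (h3 : s 3 ↔ s 1) :
    Even ((Finset.range 4).filter s).card := by
  have e : (Finset.range 4) = {0, 1, 2, 3} := by decide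
  rw [e]
  by_cases a0 : s 0 <;> by_cases a1 : s 1 <;>
    simp [Finset.filter_insert, Finset.filter_singleton, a0, a1, h2, h3, Nat.even_iff]

theorem even_card_four (s : ℕ → Prop) [DecidablePred s] (ε : ℕ → ℝ) (h0 : ε 0 = 1) (h4 : ε 4 = 1)
    (hs : ∀ r, (s r ∧ ε (r + 1) = -ε r) ∨ (¬ s r ∧ ε (r + 1) = ε r)) :
    Even ((Finset.range 4).filter s).card := by
  have e : (Finset.range 4) = {0, 1, 2, 3} := by decide
  rw [e]
  have s0 := hs 0
  have s1 := hs 1
  have s2 := hs 2
  have s3 := hs 3
  norm_num at s0 s1 s2 s3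
  by_cases a0 : s 0 <;> by_cases a1 : s 1 <;> by_cases a2 : s 2 <;> by_cases a3 : s 3 <;>
    simp [a0, a1, a2, a3] at s0 s1 s2 s3 <;>
    simp [Finset.filter_insert, Finset.filter_singleton, a0, a1, a2, a3, Nat.even_iff] <;>
    (exfalso; rw [s3, s2, s1, s0, h0] at h4; norm_num at h4)

/-- If tiles with different labels of the orbit do not overlap then the ridge condition holds.
Sequence `a` of flags: `min_period` (with `Cross`; the flags lie in the finite set `N × N`) gives `m`;
`cycle_data`, `coords` give `D, e, p, q`, `ε r = (D r).1`. `hper`: the signs follow the exits, which have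
period `m`. `hcone`: `cone_disj` gives `a r = a s` or the swapped pair, and the swapped pair is impossible by
`hD` (the determinant of the own flag is `- det (e r, e (r+1)) < 0`). `hW`: a common direction (`exists_dual`)
and `wedge_interior` give `D r = D s`, so the flags agree up to the order, so they agree (orientation), so
`s - r` is a multiple of `m`, `s - r = m`, but then the signs differ. `planeNec`: `m ≤ 4`, `m = 4 → ε 4 = 1`. -/
theorem cyc_of_disj (g : Glue P)
    (hd : ∀ τ σ : ℝ × E, g.Orb τ → g.Orb σ → τ ≠ σ →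
      Disjoint (interior (X τ '' P.body)) (interior (X σ '' P.body))) : g.Cyc := by
  classical
  intro a ha
  have hmem : ∀ r, (a r).1 ∈ P.N ∧ (a r).2 ∈ P.N := by
    intro r
    obtain ⟨-, -, -, y, -, hact, -⟩ := ha r
    have h1 : (a r).1 ∈ P.act y := by rw [hact]; simp
    have h2 : (a r).2 ∈ P.act y := by rw [hact]; simp
    exact ⟨h1.1, h2.1⟩
  have hne : ∀ r, (a r).1 ≠ (a r).2 := fun r => (ha r).1
  have hfin : (Set.range a).Finite := by
    refine ((P.N.finite_toSet).prod (P.N.finite_toSet)).subset ?_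
    rintro _ ⟨r, rfl⟩
    exact ⟨(hmem r).1, (hmem r).2⟩
  obtain ⟨m, hm, hper, hdist⟩ := min_period a g.Cross ha (fun x y z h h' => cross_fun g h h')
    (fun x y z h h' => cross_inj g h h') hfin
  obtain ⟨y₀, D, e, hy₀, hD0, hDs, hOrb, hcrd, he, he', hrec, hli⟩ := cycle_data g a ha
  obtain ⟨p, q, hpq, hp0, hq0, hp1, hq1, hdet⟩ := coords e hrec
  have hε : ∀ r, (D r).1 = 1 ∨ (D r).1 = -1 := fun r => Orb.sign g (hOrb r)
  have hε0 : (D 0).1 = 1 := by rw [hD0]
  have hsq : ∀ r, (D r).1 * (D r).1 = 1 := by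
    intro r
    rcases hε r with h | h <;> rw [h] <;> norm_num
  have hεs : ∀ r, ((a r).2 ∈ g.I ∧ (D (r + 1)).1 = -(D r).1) ∨
      ((a r).2 ∉ g.I ∧ (D (r + 1)).1 = (D r).1) := by
    intro r
    rw [hDs r]
    by_cases h : (a r).2 ∈ g.I
    · left
      refine ⟨h, ?_⟩
      simp [Glue.nb, h]
    · right
      refine ⟨h, ?_⟩
      simp [Glue.nb, h]
  have hperε : ∀ r, (D (r + m)).1 = (D m).1 * (D r).1 := by
    intro r
    induction r with
    | zero => rw [zero_add, hε0, mul_one]
    | succ r ih =>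
      have e1 : r + 1 + m = (r + m) + 1 := by ring
      rw [e1]
      have h1 := hεs (r + m)
      rw [hper r] at h1
      rcases h1 with ⟨h2, h3⟩ | ⟨h2, h3⟩ <;> rcases hεs r with ⟨h4, h5⟩ | ⟨h4, h5⟩
      · rw [h3, h5, ih]; ring
      · exact absurd h2 h4
      · exact absurd h4 h2
      · rw [h3, h5, ih]
  have hn1 : ∀ r, (a r).1 = (-(D r).1 * p r) • e 0 + (-(D r).1 * q r) • e 1 := by
    intro r
    have h1 : (a r).1 = -(D r).1 • e r := by
      rw [he r, smul_neg, neg_smul, neg_neg, smul_smul, hsq r, one_smul]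
    rw [h1]
    conv_lhs => rw [hpq r]
    rw [smul_add, smul_smul, smul_smul]
  have hn2 : ∀ r, (a r).2 = ((D r).1 * p (r + 1)) • e 0 + ((D r).1 * q (r + 1)) • e 1 := by
    intro r
    have h1 : (a r).2 = (D r).1 • e (r + 1) := by
      rw [he' r, smul_smul, hsq r, one_smul]
    rw [h1]
    conv_lhs => rw [hpq (r + 1)]
    rw [smul_add, smul_smul, smul_smul]
  have hpere : ∀ r, p (r + m) = (D m).1 * p r ∧ q (r + m) = (D m).1 * q r := by
    intro r
    have h1 := hn1 (r + m)
    rw [hper r, hn1 r, hperε r] at h1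
    have h2 := pair_coords hli h1
    rcases hε r with h3 | h3 <;> rcases hε m with h4 | h4 <;> rw [h3, h4] at h2 <;> rw [h4] <;>
      constructor <;> linarith [h2.1, h2.2]
  have hswap : ∀ r s, ¬ ((a r).1 = (a s).2 ∧ (a r).2 = (a s).1) := by
    rintro r s ⟨h1, h2⟩
    rw [hn1 r, hn2 s] at h1
    rw [hn2 r, hn1 s] at h2
    obtain ⟨h3, h4⟩ := pair_coords hli h1
    obtain ⟨h5, h6⟩ := pair_coords hli h2
    have d1 := hdet r
    have d2 := hdet s
    have k1 : p r * q (r + 1) - p (r + 1) * q r =
        -((-(D r).1 * p r) * ((D r).1 * q (r + 1)) - ((D r).1 * p (r + 1)) * (-(D r).1 * q r)) := by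
      have := hsq r
      linear_combination (-(p r * q (r + 1) - p (r + 1) * q r)) * this
    have k2 : p s * q (s + 1) - p (s + 1) * q s =
        -((-(D s).1 * p s) * ((D s).1 * q (s + 1)) - ((D s).1 * p (s + 1)) * (-(D s).1 * q s)) := by
      have := hsq s
      linear_combination (-(p s * q (s + 1) - p (s + 1) * q s)) * this
    rw [h3, h4, h5, h6] at k1
    have k3 : p r * q (r + 1) - p (r + 1) * q r = -(p s * q (s + 1) - p (s + 1) * q s) := by
      rw [k1, k2]; ring
    linarith
  have hset : ∀ r s, ({(a r).1, (a r).2} : Set E) = {(a s).1, (a s).2} → a r = a s := by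
    intro r s h
    rcases (Set.pair_eq_pair_iff.1 h) with h1 | h1
    · exact Prod.ext h1.1 h1.2
    · exact absurd h1 (hswap r s)
  have hmod : ∀ r, a (r % m) = a r := by
    intro r
    have h1 : ∀ k r, a (r + k * m) = a r := by
      intro k
      induction k with
      | zero => intro r; simp
      | succ k ih =>
        intro r
        have : r + (k + 1) * m = (r + k * m) + m := by ring
        rw [this, hper, ih]
    conv_rhs => rw [← Nat.mod_add_div r m, mul_comm m]
    rw [h1]
  have key := planeNec m hm p q (fun r => (D r).1) hε hε0 hdet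
    (fun r => ⟨hperε r, (hpere r).1, (hpere r).2⟩) ?_ ?_
  · obtain ⟨hm4, h4⟩ := key
    have hc : m = 1 ∨ m = 2 ∨ m = 3 ∨ m = 4 := by omega
    rcases hc with rfl | rfl | rfl | rfl
    · left
      rw [hper 2, hper 1]
      exact hper 0
    · right
      refine ⟨?_, ?_⟩
      · rw [hper 2]
        exact hper 0
      · exact even_card_two _ (by rw [show (2 : ℕ) = 0 + 2 from rfl, hper 0])
          (by rw [show (3 : ℕ) = 1 + 2 from rfl, hper 1])
    · left
      exact hper 0
    · right
      exact ⟨hper 0, even_card_four _ (fun r => (D r).1) hε0 (h4 rfl) hεs⟩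
  · intro r hr s hs hrs α β γ δ hα hβ hγ hδ h
    have h1 : α • (a r).1 + β • (a r).2 = γ • (a s).1 + δ • (a s).2 := by
      rw [hn1 r, hn2 r, hn1 s, hn2 s]
      have e1 : α • ((-(D r).1 * p r) • e 0 + (-(D r).1 * q r) • e 1) +
          β • (((D r).1 * p (r + 1)) • e 0 + ((D r).1 * q (r + 1)) • e 1) =
          ((D r).1 * (-α * p r + β * p (r + 1))) • e 0 +
            ((D r).1 * (-α * q r + β * q (r + 1))) • e 1 := by
        module
      have e2 : γ • ((-(D s).1 * p s) • e 0 + (-(D s).1 * q s) • e 1) +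
          δ • (((D s).1 * p (s + 1)) • e 0 + ((D s).1 * q (s + 1)) • e 1) =
          ((D s).1 * (-γ * p s + δ * p (s + 1))) • e 0 +
            ((D s).1 * (-γ * q s + δ * q (s + 1))) • e 1 := by
        module
      rw [e1, e2, h.1, h.2]
    have h2 := cone_disj (hcrd r).1 (hcrd r).2 (hcrd s).1 (hcrd s).2 hα hβ hγ hδ h1
    exact hrs (hdist r hr s hs (hset r s h2))
  · rintro r s hrs hs Xx Yy ⟨h1, h2, h3, h4⟩
    obtain ⟨x, hx0, hx1⟩ := exists_dual hli Xx Yy
    have hin : ∀ t, ⟪e t, x⟫ = p t * Xx + q t * Yy := by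
      intro t
      rw [hpq t, inner_add_left, real_inner_smul_left, real_inner_smul_left, hx0, hx1]
    rw [← hin] at h1 h2 h3 h4
    obtain ⟨η₁, hη₁, w1⟩ := wedge_interior (hε r) (hcrd r).1 (hcrd r).2 (x := x)
      (by rw [he r, inner_neg_left] at h1; linarith) (by rw [he' r] at h2; exact h2)
    obtain ⟨η₂, hη₂, w2⟩ := wedge_interior (hε s) (hcrd s).1 (hcrd s).2 (x := x)
      (by rw [he s, inner_neg_left] at h3; linarith) (by rw [he' s] at h4; exact h4)
    have hη : 0 < min η₁ η₂ / 2 := by have := lt_min hη₁ hη₂; linarith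
    have g1 := w1 (min η₁ η₂ / 2) hη (by have := min_le_left η₁ η₂; linarith)
    have g2 := w2 (min η₁ η₂ / 2) hη (by have := min_le_right η₁ η₂; linarith)
    have hDD : D r = D s := by
      by_contra hDD
      exact Set.disjoint_left.1 (hd _ _ (hOrb r) (hOrb s) hDD) g1 g2
    have haa : a r = a s := by
      apply hset
      rw [← (hcrd r).2, ← (hcrd s).2, hDD]
    have hmm := hdist (r % m) (Nat.mod_lt _ hm) (s % m) (Nat.mod_lt _ hm) (by rw [hmod, hmod, haa])
    rcases hs with hs | ⟨hs1, hs2⟩
    · rw [Nat.mod_eq_of_lt hs, Nat.mod_eq_of_lt (by omega)] at hmm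
      omega
    · have hsr : s = r + m := by
        have f1 := Nat.mod_add_div r m
        have f2 := Nat.mod_add_div s m
        have g1 : r / m < 2 := Nat.div_lt_of_lt_mul (by omega)
        have g2 : s / m < 2 := Nat.div_lt_of_lt_mul (by omega)
        generalize r / m = kr at f1 g1
        generalize s / m = ks at f2 g2
        generalize r % m = ar at f1 hmm
        generalize s % m = as at f2 hmm
        subst hmm
        interval_cases kr <;> interval_cases ks <;> omega
      have h5 := hperε r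
      rw [← hsr, ← hDD, hs1] at h5
      rcases hε r with h6 | h6 <;> rw [h6] at h5 <;> norm_num at h5

/-- NECESSITY -/
theorem nec (P : HPoly E) {I : Set E} {T : Set (ℝ × E)} (hT : IsTiling P I T) :
    ∃ g : Glue P, g.I = I ∧ g.Cyc := by
  obtain ⟨g, hI, hnb⟩ := exists_glue P hT
  exact ⟨g, hI, cyc_of_disj g (orb_disj P hT g hI hnb)⟩

end Pool.FF79
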