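import Pool.Agent.FF79.Fin
import Pool.Agent.FF24.Basic

/-! FF79/NecA: two tiles with a common facet and disjoint interiors lie on different sides of it. -/

set_option autoImplicit false

open Set Metric
open scoped RealInnerProductSpace

namespace Pool.FF79

open Pool.FF24

variable {E : Type*} [NormedAddCommGroup E] [InnerProductSpace ℝ E]

/-- if all small vectors orthogonal to the unit vector `v` are orthogonal to the unit vector `u`, then
`u = v` or `u = -v` -/
theorem na_parallel {u v : E} (hu : ‖u‖ = 1) (hv : ‖v‖ = 1) {r : ℝ} (hr : 0 < r)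
    (h : ∀ w : E, ⟪v, w⟫ = 0 → ‖w‖ < r → ⟪u, w⟫ = 0) : u = v ∨ u = -v := by
  have hvv : ⟪v, v⟫ = 1 := by rw [real_inner_self_eq_norm_sq, hv]; norm_num
  obtain ⟨c, hc⟩ : ∃ c : ℝ, c = ⟪v, u⟫ := ⟨_, rfl⟩
  obtain ⟨w, hw⟩ : ∃ w : E, w = u - c • v := ⟨_, rfl⟩
  have hvw : ⟪v, w⟫ = 0 := by
    rw [hw, inner_sub_right, inner_smul_right, hvv, ← hc]
    ring
  have ht : 0 < r / (2 * (‖w‖ + 1)) := by positivity
  have h1 := h ((r / (2 * (‖w‖ + 1))) • w) (by rw [inner_smul_right, hvw, mul_zero]) (by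
    rw [norm_smul, Real.norm_eq_abs, abs_of_pos ht, div_mul_eq_mul_div,
      div_lt_iff₀ (by positivity)]
    nlinarith [norm_nonneg w])
  rw [inner_smul_right] at h1
  have h2 : ⟪u, w⟫ = 0 := by
    rcases mul_eq_zero.1 h1 with h3 | h3
    · exact absurd h3 ht.ne'
    · exact h3
  have h3 : ⟪w, w⟫ = 0 := by
    conv_lhs => rw [hw]
    rw [inner_sub_left, inner_smul_left, ← hw, h2, hvw]
    simp
  have h4 : w = 0 := inner_self_eq_zero.1 h3
  have h5 : u = c • v := by
    rw [h4] at hw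
    exact (sub_eq_zero.1 hw.symm)
  have h6 : |c| = 1 := by
    have := congrArg norm h5
    rw [norm_smul, hu, hv, mul_one, Real.norm_eq_abs] at this
    exact this.symm
  rcases (abs_eq zero_le_one).1 h6 with h7 | h7
  · left; rw [h5, h7, one_smul]
  · right; rw [h5, h7, neg_smul, one_smul]

theorem relint_act_S (P : HPoly E) {v z : E} (hv : v ∈ P.N) (hz : z ∈ P.fc v) {r : ℝ} (hr : 0 < r)
    (h : ∀ w : E, ⟪v, w⟫ = 0 → ‖w‖ < r → z + w ∈ P.body) :
    ∀ u ∈ P.N, ⟪u, z⟫ = P.h u → u = v := by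
  intro u hu huz
  have h1 : ∀ w : E, ⟪v, w⟫ = 0 → ‖w‖ < r → ⟪u, w⟫ = 0 := by
    intro w hw hwr
    have h2 := h w hw hwr u hu
    have h3 := h (-w) (by rw [inner_neg_right, hw, neg_zero]) (by rwa [norm_neg]) u hu
    rw [inner_add_right, huz] at h2 h3
    rw [inner_neg_right] at h3
    linarith
  rcases na_parallel (P.unit u hu) (P.unit v hv) hr h1 with h2 | h2
  · exact h2
  · exfalso
    obtain ⟨z0, hz0⟩ := P.int
    have h3 := hz0 u hu
    have h4 := hz0 v hv
    have h5 := hz.2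
    have h6 : ⟪u, z0⟫ = -⟪v, z0⟫ := by rw [h2, inner_neg_left]
    have h7 : ⟪u, z⟫ = -⟪v, z⟫ := by rw [h2, inner_neg_left]
    rw [h6] at h3
    rw [h7, h5] at huz
    linarith

/-- near a point whose only active normal is `u` the other inequalities stay strict -/
theorem na_strict (P : HPoly E) {z u : E} (hz : z ∈ P.body)
    (hact : ∀ v ∈ P.N, ⟪v, z⟫ = P.h v → v = u) :
    ∃ r > 0, ∀ x : E, ‖x‖ < r → ∀ v ∈ P.N, v ≠ u → ⟪v, z + x⟫ < P.h v := by
  have hev : ∀ᶠ x : E in nhds 0, ∀ v ∈ P.N, v ≠ u → ⟪v, z + x⟫ < P.h v := by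
    rw [Filter.eventually_all_finset]
    intro v hv
    by_cases hvu : v = u
    · exact Filter.Eventually.of_forall fun x h' => absurd hvu h'
    · have hlt : ⟪v, z⟫ < P.h v := lt_of_le_of_ne (hz v hv) (fun h' => hvu (hact v hv h'))
      have hc : ContinuousAt (fun x : E => ⟪v, z + x⟫) 0 := by fun_prop
      have h0 : (fun x : E => ⟪v, z + x⟫) 0 < P.h v := by simpa using hlt
      exact (hc.eventually_lt (continuousAt_const (y := P.h v)) h0).mono fun x hx _ => hx
  obtain ⟨r, hr, h⟩ := Metric.eventually_nhds_iff.1 hev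
  exact ⟨r, hr, fun x hx => h (by rwa [dist_zero_right])⟩

/-- points with strict inequalities are in the interior of the tile -/
theorem na_interior (P : HPoly E) {τ : ℝ × E} (hτ : τ.1 = 1 ∨ τ.1 = -1) {y : E}
    (hy : ∀ v ∈ P.N, ⟪v, y⟫ < P.h v) : X τ y ∈ interior (X τ '' P.body) := by
  have hopen : IsOpen {p : E | ∀ v ∈ P.N, ⟪v, crd τ p⟫ < P.h v} := by
    have e : {p : E | ∀ v ∈ P.N, ⟪v, crd τ p⟫ < P.h v} =
        ⋂ v ∈ P.N, {p : E | ⟪v, crd τ p⟫ < P.h v} := by
      ext p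
      simp
    rw [e]
    refine isOpen_biInter_finset fun v _ => ?_
    refine isOpen_lt ?_ continuous_const
    unfold crd
    fun_prop
  have hsub : {p : E | ∀ v ∈ P.N, ⟪v, crd τ p⟫ < P.h v} ⊆ X τ '' P.body := by
    intro p hp
    exact ⟨crd τ p, fun v hv => (hp v hv).le, X_crd hτ p⟩
  refine interior_maximal hsub hopen ?_
  intro v hv
  rw [crd_X hτ]
  exact hy v hv

theorem facet_normal_S (P : HPoly E) {τ σ : ℝ × E} (hτ : τ.1 = 1 ∨ τ.1 = -1)
    (hσ : σ.1 = 1 ∨ σ.1 = -1) {u v : E} (hu : u ∈ P.N) (hv : v ∈ P.N)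
    (hd : Disjoint (interior (X τ '' P.body)) (interior (X σ '' P.body)))
    (hF : X σ '' P.fc v = X τ '' P.fc u) : σ.1 • v = -(τ.1 • u) := by
  obtain ⟨z, hz, hzact⟩ := P.real u hu
  have hzu : ⟪u, z⟫ = P.h u := (hzact u hu).2 rfl
  obtain ⟨r, hr, hstr⟩ := na_strict P hz (fun v hv h => (hzact v hv).1 h)
  have hsτ : τ.1 * τ.1 = 1 := by rcases hτ with h | h <;> rw [h] <;> norm_num
  have hsσ : σ.1 * σ.1 = 1 := by rcases hσ with h | h <;> rw [h] <;> norm_num
  -- the corresponding point of the other tile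
  have h1 : X τ z ∈ X σ '' P.fc v := by
    rw [hF]
    exact ⟨z, ⟨hz, hzu⟩, rfl⟩
  obtain ⟨z', hz', hzz⟩ := h1
  obtain ⟨e, he⟩ : ∃ e : ℝ, e = σ.1 * τ.1 := ⟨_, rfl⟩
  have he1 : e = 1 ∨ e = -1 := by
    rcases hτ with h | h <;> rcases hσ with h' | h' <;> rw [he, h, h'] <;> norm_num
  have hmove : ∀ w : E, ⟪u, w⟫ = 0 → ‖w‖ < r → z' + e • w ∈ P.fc v := by
    intro w hw hwr
    have h2 : z + w ∈ P.fc u := by
      refine ⟨fun v' hv' => ?_, by rw [inner_add_right, hw, hzu, add_zero]⟩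
      by_cases hvu : v' = u
      · rw [hvu, inner_add_right, hw, hzu, add_zero]
      · exact (hstr w hwr v' hv' hvu).le
    have h3 : X τ (z + w) ∈ X σ '' P.fc v := by
      rw [hF]
      exact ⟨_, h2, rfl⟩
    obtain ⟨z'', hz'', hzz'⟩ := h3
    have h4 : z'' = z' + e • w := by
      have h5 : X σ (z' + e • w) = X τ (z + w) := by
        unfold X at hzz ⊢
        rw [smul_add, smul_smul, he, ← mul_assoc, hsσ, one_mul, smul_add]
        rw [add_right_comm, hzz]
        abel
      rw [← crd_X hσ z'', hzz', ← h5, crd_X hσ]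
    rw [← h4]
    exact hz''
  have hpar : v = u ∨ v = -u := by
    refine na_parallel (P.unit v hv) (P.unit u hu) hr fun w hw hwr => ?_
    have h2 := (hmove w hw hwr).2
    rw [inner_add_right, hz'.2, inner_smul_right] at h2
    have h3 : e * ⟪v, w⟫ = 0 := by linarith
    rcases mul_eq_zero.1 h3 with h4 | h4
    · rcases he1 with h5 | h5 <;> rw [h5] at h4 <;> norm_num at h4
    · exact h4
  by_contra hcon
  have heq : σ.1 • v = τ.1 • u := by
    rcases hpar with h2 | h2 <;> rcases hτ with h3 | h3 <;> rcases hσ with h4 | h4 <;>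
      rw [h2, h3, h4] at hcon ⊢ <;> simp at hcon ⊢
  have hv2 : v = e • u := by
    have h2 := congrArg (fun x => σ.1 • x) heq
    simp only [smul_smul, hsσ, one_smul] at h2
    rw [he]
    exact h2
  have hact' : ∀ v' ∈ P.N, ⟪v', z'⟫ = P.h v' → v' = v := by
    refine relint_act_S P hv hz' hr fun w hw hwr => ?_
    have h2 := hmove (e • w) (by
      rw [inner_smul_right]
      have h3 : e * ⟪u, w⟫ = 0 := by
        rw [hv2, real_inner_smul_left] at hw
        exact hw
      exact h3) (by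
      rw [norm_smul, Real.norm_eq_abs]
      have : |e| = 1 := by rcases he1 with h5 | h5 <;> rw [h5] <;> norm_num
      rw [this, one_mul]
      exact hwr)
    have h4 : e • e • w = w := by
      rw [smul_smul]
      have : e * e = 1 := by rcases he1 with h5 | h5 <;> rw [h5] <;> norm_num
      rw [this, one_smul]
    rw [h4] at h2
    exact h2.1
  obtain ⟨r', hr', hstr'⟩ := na_strict P hz'.1 hact'
  obtain ⟨t, ht⟩ : ∃ t : ℝ, t = min r r' / 2 := ⟨_, rfl⟩
  have ht0 : 0 < t := by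
    rw [ht]
    exact half_pos (lt_min hr hr')
  have htr : t < r := by
    rw [ht]
    have := min_le_left r r'
    linarith
  have htr' : t < r' := by
    rw [ht]
    have := min_le_right r r'
    linarith
  have hin : ∀ (y n : E), n ∈ P.N → ⟪n, y⟫ = P.h n →
      (∀ x : E, ‖x‖ = t → ∀ v' ∈ P.N, v' ≠ n → ⟪v', y + x⟫ < P.h v') →
      ∀ v' ∈ P.N, ⟪v', y + -(t • n)⟫ < P.h v' := by
    intro y n hn hyn hx v' hv'
    by_cases hne : v' = n
    · rw [hne, inner_add_right, inner_neg_right, inner_smul_right, real_inner_self_eq_norm_sq,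
        P.unit n hn, hyn]
      linarith
    · refine hx _ ?_ v' hv' hne
      rw [norm_neg, norm_smul, P.unit n hn, mul_one, Real.norm_eq_abs, abs_of_pos ht0]
  have hi1 : X τ (z + -(t • u)) ∈ interior (X τ '' P.body) :=
    na_interior P hτ (hin z u hu hzu fun x hx v' hv' hne => hstr x (hx ▸ htr) v' hv' hne)
  have hi2 : X σ (z' + -(t • v)) ∈ interior (X σ '' P.body) :=
    na_interior P hσ (hin z' v hv hz'.2 fun x hx v' hv' hne => hstr' x (hx ▸ htr') v' hv' hne)
  have hsame : X σ (z' + -(t • v)) = X τ (z + -(t • u)) := by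
    unfold X at hzz ⊢
    rw [smul_add, smul_neg, smul_comm σ.1 t v, heq, smul_add, smul_neg, smul_comm τ.1 t u]
    rw [add_right_comm, hzz]
    abel
  rw [hsame] at hi2
  exact Set.disjoint_left.1 hd hi1 hi2

end Pool.FF79
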