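import Pool.Agent.FF79.Fin
import Pool.Agent.FF79.NecA82

/-! FF79/NecA: two tiles with a common facet and disjoint interiors lie on different sides of it. -/

set_option autoImplicit false

open Set Metric
open scoped RealInnerProductSpace

namespace Pool.FF79

open Pool.FF24

variable {E : Type*} [NormedAddCommGroup E] [InnerProductSpace ℝ E]

/-- a point of the facet `v` around which the whole hyperplane of the facet stays in the polytope lies
in no other facet -/
theorem relint_act (P : HPoly E) {v z : E} (hv : v ∈ P.N) (hz : z ∈ P.fc v) {r : ℝ} (hr : 0 < r)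
    (h : ∀ w : E, ⟪v, w⟫ = 0 → ‖w‖ < r → z + w ∈ P.body) :
    ∀ u ∈ P.N, ⟪u, z⟫ = P.h u → u = v :=
  relint_act_S P hv hz hr h

/-- Let two tiles have the common facet `X σ (fc v) = X τ (fc u)`. If the interiors are disjoint then
the outer normals are opposite. (Take the point of `real` for `u`; vectors orthogonal to `u` are
orthogonal to `v`, so `v = ± u`; if the outer normals `σ.1 • v`, `τ.1 • u` are equal then the two
interiors meet near the point, by `relint_act` for `v`.) -/
theorem facet_normal (P : HPoly E) {τ σ : ℝ × E} (hτ : τ.1 = 1 ∨ τ.1 = -1) (hσ : σ.1 = 1 ∨ σ.1 = -1)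
    {u v : E} (hu : u ∈ P.N) (hv : v ∈ P.N)
    (hd : Disjoint (interior (X τ '' P.body)) (interior (X σ '' P.body)))
    (hF : X σ '' P.fc v = X τ '' P.fc u) : σ.1 • v = -(τ.1 • u) :=
  facet_normal_S P hτ hσ hu hv hd hF

end Pool.FF79
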