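import Pool.Agent.FF79.NecA
import Pool.Agent.FF24.Basic

/-! FF79/NecBS: the gluing data of a tiling (proofs for FF79/NecB). -/

set_option autoImplicit false

open Set Metric
open scoped RealInnerProductSpace

namespace Pool.FF79.S74

open Pool.FF24

variable {E : Type*} [NormedAddCommGroup E] [InnerProductSpace ℝ E]

theorem trans_unique {A : Set E} (hA : A.Nonempty) (hb : Bornology.IsBounded A) {c c' : E}
    (h : (fun z => z + c) '' A = (fun z => z + c') '' A) : c = c' := by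
  obtain ⟨z, hz⟩ := hA
  have step : ∀ y ∈ A, y + (c - c') ∈ A := by
    intro y hy
    have h1 : y + c ∈ (fun z => z + c') '' A := by
      rw [← h]
      exact ⟨y, hy, rfl⟩
    obtain ⟨y', hy', he⟩ := h1
    have he' : y' + c' = y + c := he
    have : y + (c - c') = y' := by
      rw [← add_sub_assoc, ← he', add_sub_cancel_right]
    rw [this]
    exact hy'
  have hn : ∀ n : ℕ, z + (n : ℝ) • (c - c') ∈ A := by
    intro n
    induction n with
    | zero => simpa using hz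
    | succ n ih =>
      have h1 := step _ ih
      rw [add_assoc] at h1
      have e : ((n + 1 : ℕ) : ℝ) • (c - c') = (n : ℝ) • (c - c') + (c - c') := by
        push_cast
        rw [add_smul, one_smul]
      rw [e]
      exact h1
  obtain ⟨r, hr⟩ := hb.exists_norm_le
  by_contra hne
  have hpos : 0 < ‖c - c'‖ := norm_pos_iff.2 (sub_ne_zero.2 hne)
  obtain ⟨n, hn'⟩ := exists_nat_gt ((r + ‖z‖) / ‖c - c'‖)
  rw [div_lt_iff₀ hpos] at hn'
  have h1 := hr _ (hn n)
  have h2 : (n : ℝ) • (c - c') = (z + (n : ℝ) • (c - c')) - z := by abel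
  have h3 : (n : ℝ) * ‖c - c'‖ ≤ r + ‖z‖ := by
    calc (n : ℝ) * ‖c - c'‖ = ‖(n : ℝ) • (c - c')‖ := by rw [norm_smul, Real.norm_natCast]
      _ = ‖(z + (n : ℝ) • (c - c')) - z‖ := by rw [← h2]
      _ ≤ ‖z + (n : ℝ) • (c - c')‖ + ‖z‖ := norm_sub_le _ _
      _ ≤ r + ‖z‖ := by linarith
  linarith

theorem fc_bdd (P : HPoly E) (u : E) : Bornology.IsBounded (P.fc u) := by
  obtain ⟨r, hr⟩ := P.bdd
  rw [isBounded_iff_forall_norm_le]
  exact ⟨r, fun z hz => hr z hz.1⟩

theorem sq_smul' {e : ℝ} (he : e = 1 ∨ e = -1) (x : E) : e • (e • x) = x := by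
  rcases he with h | h <;> rw [h] <;> simp

/-- the tile behind the facet `u` of the tile `τ` -/
theorem behind (P : HPoly E) {I : Set E} {T : Set (ℝ × E)} (hT : IsTiling P I T) {τ : ℝ × E}
    (hτ : τ ∈ T) {u : E} (hu : u ∈ P.N) :
    ∃ c : E, (u ∈ I ∧ ((-τ.1, τ.2 + τ.1 • c) : ℝ × E) ∈ T ∧
        (fun z => z + c) '' ((fun z => -z) '' P.fc u) = P.fc u) ∨
      (u ∉ I ∧ ((τ.1, τ.2 - τ.1 • c) : ℝ × E) ∈ T ∧ -u ∈ P.N ∧
        (fun z => z + c) '' P.fc u = P.fc (-u)) := by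
  obtain ⟨σ, hσ, hne, hs, v, hv, hF⟩ := hT.facet τ hτ u hu
  have hsτ := hT.sign τ hτ
  have hsσ := hT.sign σ hσ
  have hn := facet_normal P hsτ hsσ hu hv (hT.disj τ hτ σ hσ hne.symm) hF
  rcases hs with ⟨hI, h1⟩ | ⟨hI, h1⟩
  · have hvu : v = u := by
      rw [h1, neg_smul, neg_inj] at hn
      have h2 : τ.1 • (τ.1 • v) = τ.1 • (τ.1 • u) := congrArg (fun x => τ.1 • x) hn
      rwa [sq_smul' hsτ, sq_smul' hsτ] at h2
    subst hvu
    refine ⟨τ.1 • (σ.2 - τ.2), Or.inl ⟨hI, ?_, ?_⟩⟩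
    · have : ((-τ.1, τ.2 + τ.1 • (τ.1 • (σ.2 - τ.2))) : ℝ × E) = σ := by
        refine Prod.ext h1.symm ?_
        show τ.2 + τ.1 • (τ.1 • (σ.2 - τ.2)) = σ.2
        rw [sq_smul' hsτ, add_sub_cancel]
      rw [this]
      exact hσ
    · -- `X σ '' F = X τ '' F`
      have hX : ∀ z, τ.1 • (X σ z - τ.2) = -z + τ.1 • (σ.2 - τ.2) := by
        intro z
        unfold X
        rw [h1, neg_smul]
        have : -(τ.1 • z) + σ.2 - τ.2 = -(τ.1 • z) + (σ.2 - τ.2) := by abel
        rw [this, smul_add, smul_neg, sq_smul' hsτ]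
      have hX' : ∀ z, τ.1 • (X τ z - τ.2) = z := by
        intro z
        unfold X
        rw [add_sub_cancel_right, sq_smul' hsτ]
      have h3 := congrArg (fun A => (fun x => τ.1 • (x - τ.2)) '' A) hF
      simp only [image_image, hX, hX'] at h3
      rw [image_image]
      simpa using h3
  · have hvu : v = -u := by
      rw [h1] at hn
      have h2 := congrArg (fun x => τ.1 • x) hn
      simp only [smul_neg] at h2
      rwa [sq_smul' hsτ, sq_smul' hsτ] at h2
    subst hvu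
    refine ⟨τ.1 • (τ.2 - σ.2), Or.inr ⟨hI, ?_, hv, ?_⟩⟩
    · have : ((τ.1, τ.2 - τ.1 • (τ.1 • (τ.2 - σ.2))) : ℝ × E) = σ := by
        refine Prod.ext h1.symm ?_
        show τ.2 - τ.1 • (τ.1 • (τ.2 - σ.2)) = σ.2
        rw [sq_smul' hsτ, sub_sub_cancel]
      rw [this]
      exact hσ
    · have hX : ∀ z, τ.1 • (X σ z - σ.2) = z := by
        intro z
        unfold X
        rw [h1, add_sub_cancel_right, sq_smul' hsτ]
      have hX' : ∀ z, τ.1 • (X τ z - σ.2) = z + τ.1 • (τ.2 - σ.2) := by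
        intro z
        unfold X
        rw [add_sub_assoc, smul_add, sq_smul' hsτ]
      have h3 := congrArg (fun A => (fun x => τ.1 • (x - σ.2)) '' A) hF
      simp only [image_image, hX, hX'] at h3
      simpa using h3.symm

theorem exists_glue (P : HPoly E) {I : Set E} {T : Set (ℝ × E)} (hT : IsTiling P I T) :
    ∃ g : Glue P, g.I = I ∧ ∀ τ ∈ T, ∀ u ∈ P.N, g.nb u τ ∈ T := by
  obtain ⟨τ₀, hτ₀, -⟩ := hT.cover 0
  have hex : ∀ u, ∃ c : E, u ∈ P.N → ((u ∈ I ∧ ((-τ₀.1, τ₀.2 + τ₀.1 • c) : ℝ × E) ∈ T ∧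
        (fun z => z + c) '' ((fun z => -z) '' P.fc u) = P.fc u) ∨
      (u ∉ I ∧ ((τ₀.1, τ₀.2 - τ₀.1 • c) : ℝ × E) ∈ T ∧ -u ∈ P.N ∧
        (fun z => z + c) '' P.fc u = P.fc (-u))) := by
    intro u
    by_cases hu : u ∈ P.N
    · obtain ⟨c, hc⟩ := behind P hT hτ₀ hu
      exact ⟨c, fun _ => hc⟩
    · exact ⟨0, fun h => absurd h hu⟩
  choose c hc using hex
  have hI1 : ∀ u ∈ P.N, u ∈ I → (fun z => z + c u) '' ((fun z => -z) '' P.fc u) = P.fc u := by
    intro u hu hI
    rcases hc u hu with h | h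
    · exact h.2.2
    · exact absurd hI h.1
  have hI2 : ∀ u ∈ P.N, u ∉ I → -u ∈ P.N ∧ (fun z => z + c u) '' P.fc u = P.fc (-u) := by
    intro u hu hI
    rcases hc u hu with h | h
    · exact absurd h.1 hI
    · exact h.2.2
  have hnegI : ∀ u ∈ P.N, u ∉ I → -u ∉ I := by
    intro u hu hI hI'
    have hu' := (hI2 u hu hI).1
    obtain ⟨σ, hσ, hne, hs, v, hv, hF⟩ := hT.facet τ₀ hτ₀ u hu
    have hsτ := hT.sign τ₀ hτ₀
    have hsσ := hT.sign σ hσ
    have hn := facet_normal P hsτ hsσ hu hv (hT.disj τ₀ hτ₀ σ hσ hne.symm) hF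
    have h1 : σ.1 = τ₀.1 := by
      rcases hs with h | h
      · exact absurd h.1 hI
      · exact h.2
    have hvu : v = -u := by
      rw [h1] at hn
      have h2 := congrArg (fun x => τ₀.1 • x) hn
      simp only [smul_neg] at h2
      rwa [sq_smul' hsτ, sq_smul' hsτ] at h2
    subst hvu
    obtain ⟨ρ, hρ, hne', hs', w, hw, hF'⟩ := hT.facet σ hσ (-u) hv
    have hsρ := hT.sign ρ hρ
    have hn' := facet_normal P hsσ hsρ hv hw (hT.disj σ hσ ρ hρ hne'.symm) hF'
    have h1' : ρ.1 = -σ.1 := by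
      rcases hs' with h | h
      · exact h.2
      · exact absurd hI' h.1
    have hwu : w = -u := by
      rw [h1', neg_smul, neg_inj] at hn'
      have h2 : σ.1 • (σ.1 • w) = σ.1 • (σ.1 • (-u)) := congrArg (fun x => σ.1 • x) hn'
      rwa [sq_smul' hsσ, sq_smul' hsσ] at h2
    subst hwu
    have hu0 : u ≠ 0 := by
      intro h0
      have := P.unit u hu
      rw [h0, norm_zero] at this
      exact zero_ne_one this
    by_cases hρτ : ρ = τ₀
    · rw [hρτ, h1] at h1'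
      rcases hsτ with h | h <;> rw [h] at h1' <;> norm_num at h1'
    · have hn'' := facet_normal P hsτ hsρ hu hw (hT.disj τ₀ hτ₀ ρ hρ (Ne.symm hρτ)) (hF'.trans hF)
      rw [h1', h1, neg_smul, smul_neg, neg_neg] at hn''
      have h2 : τ₀.1 • (τ₀.1 • u) = τ₀.1 • (-(τ₀.1 • u)) := congrArg (fun x => τ₀.1 • x) hn''
      rw [smul_neg, sq_smul' hsτ] at h2
      have h4 : (2 : ℝ) • u = 0 := by
        rw [two_smul]
        nth_rewrite 1 [h2]
        exact neg_add_cancel u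
      rcases smul_eq_zero.1 h4 with h5 | h5
      · norm_num at h5
      · exact hu0 h5
  refine ⟨⟨I, c, ?_, ?_, hnegI, ?_⟩, rfl, ?_⟩
  · intro u hu hI z hz
    rw [← hI1 u hu hI]
    refine ⟨-z, ⟨z, hz, rfl⟩, ?_⟩
    show -z + c u = c u - z
    abel
  · exact fun u hu hI => (hI2 u hu hI).1
  · intro u hu hI z hz
    rw [← (hI2 u hu hI).2]
    exact ⟨z, hz, rfl⟩
  · intro τ hτ u hu
    obtain ⟨c', hc'⟩ := behind P hT hτ hu
    rcases hc' with ⟨hI, h1, h2⟩ | ⟨hI, h1, h2, h3⟩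
    · have he : c u = c' := by
        refine trans_unique (A := (fun z => -z) '' P.fc u) ?_ ?_ ?_
        · exact (fc_nonempty hu).image _
        · obtain ⟨r, hr⟩ := (fc_bdd P u).exists_norm_le
          rw [isBounded_iff_forall_norm_le]
          refine ⟨r, ?_⟩
          rintro _ ⟨z, hz, rfl⟩
          simpa using hr z hz
        · rw [hI1 u hu hI, h2]
      unfold Glue.nb
      rw [if_pos hI]
      show ((-τ.1, τ.2 + τ.1 • c u) : ℝ × E) ∈ T
      rw [he]
      exact h1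
    · have he : c u = c' := by
        refine trans_unique (A := P.fc u) (fc_nonempty hu) (fc_bdd P u) ?_
        rw [(hI2 u hu hI).2, h3]
      unfold Glue.nb
      rw [if_neg hI]
      show ((τ.1, τ.2 - τ.1 • c u) : ℝ × E) ∈ T
      rw [he]
      exact h1

end Pool.FF79.S74
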