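import Pool.Agent.FF79.NecA
import Pool.Agent.FF79.NecBS

/-! FF79/NecB: the gluing data of a tiling. -/

set_option autoImplicit false

open Set Metric
open scoped RealInnerProductSpace

namespace Pool.FF79

open Pool.FF24

variable {E : Type*} [NormedAddCommGroup E] [InnerProductSpace ℝ E]

/-- a nonempty bounded set is determined up to no translation: `A + c = A + c'` implies `c = c'` -/
theorem trans_unique {A : Set E} (hA : A.Nonempty) (hb : Bornology.IsBounded A) {c c' : E}
    (h : (fun z => z + c) '' A = (fun z => z + c') '' A) : c = c' := by
  exact S74.trans_unique hA hb h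

/-- The tiling gives gluing data with the same set `I`, and it is closed under all `nb`. (`facet_normal`
gives `v = u` if `u ∈ I` and `v = -u` otherwise; the translation vector does not depend on the tile by
`trans_unique`. `negI`: if `u ∉ I` and `-u ∈ I` then the tiles `τ` and `ρ = ` the tile behind the facet
`-u` of the tile `σ` behind the facet `u` of `τ` have the same outer normal at the common facet, so
`ρ = τ` by `facet_normal`, but the signs differ.) -/
theorem exists_glue (P : HPoly E) {I : Set E} {T : Set (ℝ × E)} (hT : IsTiling P I T) :
    ∃ g : Glue P, g.I = I ∧ ∀ τ ∈ T, ∀ u ∈ P.N, g.nb u τ ∈ T := by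
  exact S74.exists_glue P hT

end Pool.FF79
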