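import Pool.Agent.FF24.Face

import Pool.Agent.FF38.ActTwo

/-! FF79/NecD38: proofs for `NecD`. -/

set_option autoImplicit false

open Set Metric
open scoped RealInnerProductSpace

namespace Pool.FF79

open Pool.FF24

variable {E : Type*} [NormedAddCommGroup E] [InnerProductSpace ℝ E] {P : HPoly E} (g : Glue P)

/-- the active set of the next point is determined by the active set -/
theorem act_next38 {u : E} {y y' : E} (hu : u ∈ P.N) (hy : y ∈ P.fc u) (hy' : y' ∈ P.fc u)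
    (h : P.act y = P.act y') : P.act (g.j u y) = P.act (g.j u y') := by
  have h1 : P.mf y = P.mf y' := by rw [mf_eq hy.1, mf_eq hy'.1, h]
  have h2 : P.mf (g.j u y) = P.mf (g.j u y') := by
    rw [← j_mf g hu hy, ← j_mf g hu hy', h1]
  have hb := (j_mem g hu hy).1
  have hb' := (j_mem g hu hy').1
  refine Set.Subset.antisymm ?_ ?_
  · have h3 : g.j u y' ∈ P.mf (g.j u y) := by rw [h2]; exact mf_self hb'
    rw [mf_eq hb] at h3
    exact h3.2
  · have h3 : g.j u y ∈ P.mf (g.j u y') := by rw [← h2]; exact mf_self hb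
    rw [mf_eq hb'] at h3
    exact h3.2

theorem cross_pt38 {a b : E × E} (h : g.Cross a b) {y : E} (hy : y ∈ P.body)
    (hact : P.act y = {a.1, a.2}) : P.act (g.j a.2 y) = {b.1, b.2} := by
  obtain ⟨-, -, -, y', hy', hact', hb⟩ := h
  have h1 : a.2 ∈ P.act y := by rw [hact]; simp
  have h2 : a.2 ∈ P.act y' := by rw [hact']; simp
  rw [← hb]
  exact act_next38 g h1.1 ⟨hy, h1.2⟩ ⟨hy', h2.2⟩ (by rw [hact, hact'])

theorem cross_fun38 {a b b' : E × E} (h : g.Cross a b) (h' : g.Cross a b') : b = b' := by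
  obtain ⟨hne, hb, hb1, y, hy, hact, hact1⟩ := h
  have h2 := cross_pt38 g h' hy hact
  obtain ⟨-, hb', hb1', -⟩ := h'
  have h3 : b.1 = b'.1 := by rw [hb1, hb1']
  rw [hact1, h3] at h2
  have h4 : b.2 = b'.2 := by
    have h5 : b.2 ∈ ({b'.1, b'.2} : Set E) := by rw [← h2]; simp
    rcases h5 with h5 | h5
    · exact absurd (h3.trans h5.symm) hb
    · exact h5
  exact Prod.ext h3 h4

theorem cross_rev38 {a b : E × E} (h : g.Cross a b) : g.Cross (b.2, b.1) (a.2, a.1) := by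
  obtain ⟨hne, hb, hb1, y, hy, hact, hact1⟩ := h
  have h2 : a.2 ∈ P.act y := by rw [hact]; simp
  have h3 : g.star b.1 = a.2 := by rw [hb1, star_star g h2.1]
  have h4 : g.j b.1 (g.j a.2 y) = y := by rw [hb1, j_j g h2.1]
  refine ⟨Ne.symm hb, Ne.symm hne, h3.symm, g.j a.2 y, (j_mem g h2.1 ⟨hy, h2.2⟩).1, ?_, ?_⟩
  · simp only
    rw [hact1, Set.pair_comm]
  · simp only
    rw [h4, hact, Set.pair_comm]

theorem cross_inj38 {a a' b : E × E} (h : g.Cross a b) (h' : g.Cross a' b) : a = a' := by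
  have h1 := cross_fun38 g (cross_rev38 g h) (cross_rev38 g h')
  have h2 : a.2 = a'.2 := congrArg Prod.fst h1
  have h3 : a.1 = a'.1 := congrArg Prod.snd h1
  exact Prod.ext h3 h2

theorem cross_comb38 {a b : E × E} (h : g.Cross a b) : ∃ α β : ℝ, 0 < α ∧
    ((a.2 ∈ g.I ∧ b.2 = -(α • a.1 + β • a.2)) ∨ (a.2 ∉ g.I ∧ b.2 = α • a.1 + β • a.2)) := by
  obtain ⟨hne, hb, hb1, y, hy, hact, hact1⟩ := h
  obtain ⟨w, α, β, hw, hsw, hα, hc⟩ := FF38.act_two g hy hne hact
  have h1 : b.2 = w := by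
    have h2 : b.2 ∈ ({g.star a.2, w} : Set E) := by rw [← hw, hact1]; simp
    rcases h2 with h2 | h2
    · exact absurd (hb1.trans h2.symm) hb
    · exact h2
  refine ⟨α, β, hα, ?_⟩
  rw [h1]
  exact hc

theorem cone_disj38 {a b : E × E} {y y' : E} (hy : y ∈ P.body) (ha : P.act y = {a.1, a.2})
    (hy' : y' ∈ P.body) (hb : P.act y' = {b.1, b.2}) {α β γ δ : ℝ} (hα : 0 < α) (hβ : 0 < β)
    (hγ : 0 < γ) (hδ : 0 < δ) (h : α • a.1 + β • a.2 = γ • b.1 + δ • b.2) :
    ({a.1, a.2} : Set E) = {b.1, b.2} := by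
  -- `q` active, `q'` in the body: the value of the functional at `q'` is at most the value at `q`
  have key : ∀ {u v q q' : E} {s t : ℝ}, P.act q = {u, v} → q' ∈ P.body → 0 < s → 0 < t →
      ⟪s • u + t • v, q'⟫ ≤ ⟪s • u + t • v, q⟫ ∧
      (⟪s • u + t • v, q'⟫ = ⟪s • u + t • v, q⟫ → ({u, v} : Set E) ⊆ P.act q') := by
    intro u v q q' s t hq hq' hs ht
    have hu : u ∈ P.act q := by rw [hq]; simp
    have hv : v ∈ P.act q := by rw [hq]; simp
    rw [inner_add_left, inner_add_left, real_inner_smul_left, real_inner_smul_left,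
      real_inner_smul_left, real_inner_smul_left, hu.2, hv.2]
    have h1 := hq' u hu.1
    have h2 := hq' v hv.1
    have h3 : s * ⟪u, q'⟫ ≤ s * P.h u := mul_le_mul_of_nonneg_left h1 hs.le
    have h4 : t * ⟪v, q'⟫ ≤ t * P.h v := mul_le_mul_of_nonneg_left h2 ht.le
    refine ⟨by linarith, fun h5 => ?_⟩
    have h6 : s * ⟪u, q'⟫ = s * P.h u := by linarith
    have h7 : t * ⟪v, q'⟫ = t * P.h v := by linarith
    intro w hw
    rcases hw with rfl | hw
    · exact ⟨hu.1, mul_left_cancel₀ hs.ne' h6⟩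
    · rw [mem_singleton_iff.1 hw]
      exact ⟨hv.1, mul_left_cancel₀ ht.ne' h7⟩
  have h1 := key ha hy' hα hβ
  have h2 := key hb hy hγ hδ
  rw [h] at h1
  have h3 := le_antisymm h1.1 h2.1
  have h4 := h1.2 h3
  have h5 := h2.2 h3.symm
  rw [hb] at h4
  rw [ha] at h5
  exact Set.Subset.antisymm h4 h5

end Pool.FF79
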