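import Pool.Agent.FF24.Face
import Pool.Agent.FF24.Two
import Pool.Agent.FF79.NecD38

/-! FF79/NecD: the steps of `Cross` are functional and injective; the relation between the normals. -/

set_option autoImplicit false

open Set Metric
open scoped RealInnerProductSpace

namespace Pool.FF79

open Pool.FF24

variable {E : Type*} [NormedAddCommGroup E] [InnerProductSpace ℝ E] {P : HPoly E} (g : Glue P)

/-- the next flag does not depend on the point of the ridge (`mf_eq`, `j_mf`: `mf y` is the same for all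
`y` with `act y = {a.1, a.2}`, so `mf (j a.2 y)` is the same, so `act (j a.2 y)` is the same) -/
theorem cross_pt {a b : E × E} (h : g.Cross a b) {y : E} (hy : y ∈ P.body)
    (hact : P.act y = {a.1, a.2}) : P.act (g.j a.2 y) = {b.1, b.2} :=
  cross_pt38 g h hy hact

theorem cross_fun {a b b' : E × E} (h : g.Cross a b) (h' : g.Cross a b') : b = b' :=
  cross_fun38 g h h'

/-- (`a.2 = star b.1`; the point `y' = j a.2 y` has `act y' = {b.1, b.2}` and `j b.1 y' = y`: so
`Cross (b.2, b.1) (a.2, a.1)`, and `cross_fun`) -/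
theorem cross_inj {a a' b : E × E} (h : g.Cross a b) (h' : g.Cross a' b) : a = a' :=
  cross_inj38 g h h'

/-- from `act_two` -/
theorem cross_comb {a b : E × E} (h : g.Cross a b) : ∃ α β : ℝ, 0 < α ∧
    ((a.2 ∈ g.I ∧ b.2 = -(α • a.1 + β • a.2)) ∨ (a.2 ∉ g.I ∧ b.2 = α • a.1 + β • a.2)) :=
  cross_comb38 g h

/-- open cones of different pairs are disjoint: if `z = α a₁ + β a₂ = γ b₁ + δ b₂`, the linear functional
`z` is maximal over `P` exactly at the points with `a₁, a₂` active and exactly at the points with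
`b₁, b₂` active -/
theorem cone_disj {a b : E × E} {y y' : E} (hy : y ∈ P.body) (ha : P.act y = {a.1, a.2})
    (hy' : y' ∈ P.body) (hb : P.act y' = {b.1, b.2}) {α β γ δ : ℝ} (hα : 0 < α) (hβ : 0 < β)
    (hγ : 0 < γ) (hδ : 0 < δ) (h : α • a.1 + β • a.2 = γ • b.1 + δ • b.2) :
    ({a.1, a.2} : Set E) = {b.1, b.2} :=
  cone_disj38 hy ha hy' hb hα hβ hγ hδ h

end Pool.FF79
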