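import Mathlib

/-!
# Sectors around a ridge (FF79)

`n i = cos (θ i) a + sin (θ i) b` with `a, b` orthonormal and `θ` running from `0` to `2 π` in
steps between `0` and `π`. The sectors `C i = {z : <n i, z> ≤ 0 ≤ <n (i+1), z>}`, `i < k`, tile.
-/

namespace FF79

open Real

variable {E : Type*} [NormedAddCommGroup E] [InnerProductSpace ℝ E]

/-- The direction at angle `t` in the plane of `a, b`. -/
noncomputable def dir (a b : E) (t : ℝ) : E := Real.cos t • a + Real.sin t • b

theorem inner_dir (a b z : E) (t : ℝ) :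
    inner ℝ (dir a b t) z = Real.cos t * inner ℝ a z + Real.sin t * inner ℝ b z := by
  simp [dir, inner_add_left, inner_smul_left]

/-- polar form: `<dir t, z> = r cos (t - φ)`. -/
theorem exists_polar (x y : ℝ) : ∃ r φ : ℝ, 0 ≤ r ∧ x = r * Real.cos φ ∧ y = r * Real.sin φ := by
  refine ⟨‖(⟨x, y⟩ : ℂ)‖, Complex.arg ⟨x, y⟩, norm_nonneg _, ?_, ?_⟩
  · simp [Complex.norm_mul_cos_arg]
  · simp [Complex.norm_mul_sin_arg]

theorem inner_dir_polar {a b z : E} {r φ : ℝ} (hx : inner ℝ a z = r * Real.cos φ)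
    (hy : inner ℝ b z = r * Real.sin φ) (t : ℝ) :
    inner ℝ (dir a b t) z = r * Real.cos (t - φ) := by
  rw [inner_dir, hx, hy, Real.cos_sub]; ring

/-- a discrete crossing lemma: a point of `[θ 0, θ k]` lies in some `[θ i, θ (i+1)]`. -/
theorem exists_step (θ : ℕ → ℝ) : ∀ (k : ℕ), 0 < k → ∀ s : ℝ, θ 0 ≤ s → s ≤ θ k →
    ∃ i < k, θ i ≤ s ∧ s ≤ θ (i + 1) := by
  intro k
  induction k with
  | zero => intro h; omega
  | succ k ih =>
    intro _ s h0 h1
    rcases Nat.eq_zero_or_pos k with hk | hk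
    · subst hk
      exact ⟨0, by omega, h0, h1⟩
    · by_cases h : s ≤ θ k
      · obtain ⟨i, hi, h2, h3⟩ := ih hk s h0 h
        exact ⟨i, by omega, h2, h3⟩
      · exact ⟨k, by omega, (not_le.mp h).le, h1⟩

/-- the sectors cover. -/
theorem sect_cover (a b : E) (θ : ℕ → ℝ) (k : ℕ) (h0 : θ 0 = 0) (hk : θ k = 2 * π)
    (hs : ∀ i < k, θ i < θ (i + 1) ∧ θ (i + 1) < θ i + π) (z : E) :
    ∃ i < k, inner ℝ (dir a b (θ i)) z ≤ 0 ∧ 0 ≤ inner ℝ (dir a b (θ (i + 1))) z := by
  obtain ⟨r, φ, hr, hx, hy⟩ := exists_polar (inner ℝ a z) (inner ℝ b z)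
  have hk0 : 0 < k := by
    rcases Nat.eq_zero_or_pos k with h | h
    · subst h; rw [h0] at hk; have := Real.pi_pos; linarith
    · exact h
  -- the angle `s = φ - π/2` modulo `2 π`, in `[0, 2 π)`
  obtain ⟨m, hm⟩ : ∃ m : ℤ, 0 ≤ φ - π / 2 + m * (2 * π) ∧ φ - π / 2 + m * (2 * π) < 2 * π := by
    have h2 : (0:ℝ) < 2 * π := by have := Real.pi_pos; linarith
    obtain ⟨m, hm, -⟩ := existsUnique_add_zsmul_mem_Ico h2 (φ - π / 2) 0
    refine ⟨m, ?_, ?_⟩
    · simpa using hm.1
    · simpa using hm.2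
  obtain ⟨i, hi, h1, h2⟩ := exists_step θ k hk0 (φ - π / 2 + m * (2 * π)) (by rw [h0]; exact hm.1)
    (by rw [hk]; exact hm.2.le)
  refine ⟨i, hi, ?_, ?_⟩
  · rw [inner_dir_polar hx hy]
    have hc : Real.cos (θ i - φ) = Real.cos (θ i - φ - m * (2 * π) + π + π / 2 - π - π / 2) := by
      rw [show θ i - φ - m * (2 * π) + π + π / 2 - π - π / 2 = (θ i - φ) - m * (2 * π) by ring,
        Real.cos_sub_int_mul_two_pi]
    have : Real.cos (θ i - φ) ≤ 0 := by
      rw [← Real.cos_sub_int_mul_two_pi (θ i - φ) m, ← Real.cos_neg]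
      apply Real.cos_nonpos_of_pi_div_two_le_of_le
      · linarith
      · have := (hs i hi).2; linarith
    nlinarith
  · rw [inner_dir_polar hx hy]
    have : 0 ≤ Real.cos (θ (i + 1) - φ) := by
      rw [← Real.cos_sub_int_mul_two_pi (θ (i + 1) - φ) m]
      apply Real.cos_nonneg_of_neg_pi_div_two_le_of_le
      · linarith
      · have := (hs i hi).2; linarith
    positivity

/-- Normal form: `<dir t, z> = r sin (t - s)` with `0 ≤ s < 2 π`. -/
theorem exists_sin_form (a b z : E) : ∃ r s : ℝ, 0 ≤ r ∧ 0 ≤ s ∧ s < 2 * π ∧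
    (r = 0 ↔ inner ℝ a z = 0 ∧ inner ℝ b z = 0) ∧
    ∀ t, inner ℝ (dir a b t) z = r * Real.sin (t - s) := by
  obtain ⟨r, φ, hr, hx, hy⟩ := exists_polar (inner ℝ a z) (inner ℝ b z)
  obtain ⟨m, hm⟩ : ∃ m : ℤ, 0 ≤ φ - π / 2 + m * (2 * π) ∧ φ - π / 2 + m * (2 * π) < 2 * π := by
    have h2 : (0:ℝ) < 2 * π := by have := Real.pi_pos; linarith
    obtain ⟨m, hm, -⟩ := existsUnique_add_zsmul_mem_Ico h2 (φ - π / 2) 0
    refine ⟨m, ?_, ?_⟩
    · simpa using hm.1
    · simpa using hm.2
  refine ⟨r, φ - π / 2 + m * (2 * π), hr, hm.1, hm.2, ?_, ?_⟩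
  · constructor
    · intro h; rw [hx, hy, h]; simp
    · rintro ⟨h1, h2⟩
      rw [hx] at h1; rw [hy] at h2
      have := Real.sin_sq_add_cos_sq φ
      have h3 : r ^ 2 = 0 := by
        have : r ^ 2 = (r * Real.cos φ) ^ 2 + (r * Real.sin φ) ^ 2 := by
          rw [mul_pow, mul_pow, ← mul_add, add_comm, this, mul_one]
        rw [this, h1, h2]; simp
      exact pow_eq_zero_iff (two_ne_zero) |>.mp h3
  · intro t
    rw [inner_dir_polar hx hy]
    have : t - (φ - π / 2 + m * (2 * π)) = (t - φ + π / 2) - m * (2 * π) := by ring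
    rw [this, Real.sin_sub_int_mul_two_pi, Real.sin_add_pi_div_two]

/-- location of the crossing. -/
theorem sect_loc {x y s : ℝ} (hx0 : 0 ≤ x) (hxy : x < y) (_hyx : y < x + π) (hy : y ≤ 2 * π)
    (hs0 : 0 ≤ s) (hs1 : s < 2 * π) (h1 : Real.sin (x - s) ≤ 0) (h2 : 0 ≤ Real.sin (y - s)) :
    (x ≤ s ∧ s ≤ y) ∨ (s = 0 ∧ y = 2 * π) := by
  have hpi := Real.pi_pos
  by_cases hxs : x ≤ s
  · by_cases hsy : s ≤ y
    · exact Or.inl ⟨hxs, hsy⟩
    · exfalso
      push Not at hsy
      -- y - s in (-2π, 0), sin ≥ 0 so y - s ≤ -π, x - s in (-2 π, -π): sin > 0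
      have h3 : y - s ≤ -π := by
        by_contra h
        push Not at h
        have : Real.sin (y - s) < 0 := Real.sin_neg_of_neg_of_neg_pi_lt (by linarith) h
        linarith
      have h4 : 0 < Real.sin (x - s + 2 * π) := Real.sin_pos_of_pos_of_lt_pi (by linarith) (by linarith)
      rw [Real.sin_add_two_pi] at h4
      linarith
  · push Not at hxs
    right
    have h3 : π ≤ x - s := by
      by_contra h
      push Not at h
      have : 0 < Real.sin (x - s) := Real.sin_pos_of_pos_of_lt_pi (by linarith) h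
      linarith
    have h4 : y - s = 2 * π := by
      by_contra h
      have h5 : y - s < 2 * π := lt_of_le_of_ne (by linarith) h
      have h6 : Real.sin (y - s - 2 * π) < 0 :=
        Real.sin_neg_of_neg_of_neg_pi_lt (by linarith) (by linarith)
      rw [Real.sin_sub_two_pi] at h6
      linarith
    constructor <;> linarith

/-- monotonicity -/
theorem theta_mono (θ : ℕ → ℝ) (k : ℕ) (hs : ∀ i < k, θ i < θ (i + 1)) :
    ∀ j ≤ k, ∀ i < j, θ i < θ j := by
  intro j
  induction j with
  | zero => intro _ i hi; omega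
  | succ j ih =>
    intro hj i hi
    rcases Nat.lt_succ_iff_lt_or_eq.mp hi with h | h
    · exact (ih (by omega) i h).trans (hs j (by omega))
    · subst h; exact hs i (by omega)

/-- a point in the interior of the sector `i` lies in no other sector. -/
theorem sect_unique (a b : E) (θ : ℕ → ℝ) (k : ℕ) (h0 : θ 0 = 0) (hk : θ k = 2 * π)
    (hs : ∀ i < k, θ i < θ (i + 1) ∧ θ (i + 1) < θ i + π) (z : E) {i j : ℕ} (hi : i < k) (hj : j < k)
    (h1 : inner ℝ (dir a b (θ i)) z < 0) (h2 : 0 < inner ℝ (dir a b (θ (i + 1))) z)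
    (h3 : inner ℝ (dir a b (θ j)) z ≤ 0) (h4 : 0 ≤ inner ℝ (dir a b (θ (j + 1))) z) : j = i := by
  obtain ⟨r, s, hr, hs0, hs1, -, hf⟩ := exists_sin_form a b z
  have hmono := theta_mono θ k (fun i hi => (hs i hi).1)
  have hnn : ∀ i ≤ k, 0 ≤ θ i := by
    intro i hi
    rcases Nat.eq_zero_or_pos i with h | h
    · rw [h, h0]
    · have := hmono i hi 0 h; rw [h0] at this; exact this.le
  have hle : ∀ i ≤ k, θ i ≤ 2 * π := by
    intro i hi
    rcases lt_or_eq_of_le hi with h | h
    · have := hmono k le_rfl i h; rw [hk] at this; exact this.le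
    · rw [h, hk]
  rw [hf] at h1 h2 h3 h4
  have hr0 : 0 < r := by
    rcases hr.lt_or_eq with h | h
    · exact h
    · rw [← h] at h2; simp at h2
  have h1' : Real.sin (θ i - s) < 0 := by
    by_contra h; push Not at h; have := mul_nonneg hr h; linarith
  have h2' : 0 < Real.sin (θ (i + 1) - s) := by
    by_contra h; push Not at h; have := mul_nonpos_of_nonneg_of_nonpos hr h; linarith
  have h3' : Real.sin (θ j - s) ≤ 0 := by
    by_contra h; push Not at h; have := mul_pos hr0 h; linarith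
  have h4' : 0 ≤ Real.sin (θ (j + 1) - s) := by
    by_contra h; push Not at h; have := mul_neg_of_pos_of_neg hr0 h; linarith
  rcases sect_loc (hnn i hi.le) (hs i hi).1 (hs i hi).2 (hle (i + 1) hi) hs0 hs1 h1'.le h2'.le with
    hA | hA
  swap
  · rw [hA.1, hA.2] at h2'; simp at h2'
  have hi1 : θ i < s := by
    rcases hA.1.lt_or_eq with h | h
    · exact h
    · rw [h] at h1'; simp at h1'
  have hi2 : s < θ (i + 1) := by
    rcases hA.2.lt_or_eq with h | h
    · exact h
    · rw [← h] at h2'; simp at h2'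
  rcases sect_loc (hnn j hj.le) (hs j hj).1 (hs j hj).2 (hle (j + 1) hj) hs0 hs1 h3' h4' with
    hB | hB
  swap
  · exfalso; have := hnn i hi.le; linarith [hB.1]
  rcases lt_trichotomy j i with h | h | h
  · exfalso
    have : θ (j + 1) ≤ θ i := by
      rcases lt_or_eq_of_le (Nat.succ_le_of_lt h) with h' | h'
      · exact (hmono i hi.le (j + 1) h').le
      · exact le_of_eq (congrArg θ h')
    linarith [hB.2]
  · exact h
  · exfalso
    have : θ (i + 1) ≤ θ j := by
      rcases lt_or_eq_of_le (Nat.succ_le_of_lt h) with h' | h'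
      · exact (hmono j hj.le (i + 1) h').le
      · exact le_of_eq (congrArg θ h')
    linarith [hB.1]

/-- a point on the wall between the sectors `i - 1` and `i` (cyclically) lies in these two only. -/
theorem sect_wall (a b : E) (θ : ℕ → ℝ) (k : ℕ) (h0 : θ 0 = 0) (hk : θ k = 2 * π)
    (hs : ∀ i < k, θ i < θ (i + 1) ∧ θ (i + 1) < θ i + π) (z : E) {i : ℕ} (hi : i < k)
    (h1 : inner ℝ (dir a b (θ i)) z = 0) (h2 : 0 < inner ℝ (dir a b (θ (i + 1))) z) {j : ℕ}
    (hj : j < k)
    (h3 : inner ℝ (dir a b (θ j)) z ≤ 0) (h4 : 0 ≤ inner ℝ (dir a b (θ (j + 1))) z) :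
    j = i ∨ (j + 1) % k = i := by
  obtain ⟨r, s, hr, hs0, hs1, -, hf⟩ := exists_sin_form a b z
  have hpi := Real.pi_pos
  have hmono := theta_mono θ k (fun i hi => (hs i hi).1)
  have hnn : ∀ i ≤ k, 0 ≤ θ i := by
    intro i hi
    rcases Nat.eq_zero_or_pos i with h | h
    · rw [h, h0]
    · have := hmono i hi 0 h; rw [h0] at this; exact this.le
  have hle : ∀ i ≤ k, θ i ≤ 2 * π := by
    intro i hi
    rcases lt_or_eq_of_le hi with h | h
    · have := hmono k le_rfl i h; rw [hk] at this; exact this.le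
    · rw [h, hk]
  rw [hf] at h1 h2 h3 h4
  have hr0 : 0 < r := by
    rcases hr.lt_or_eq with h | h
    · exact h
    · rw [← h] at h2; simp at h2
  have h1' : Real.sin (θ i - s) = 0 := by
    rcases mul_eq_zero.mp h1 with h | h
    · linarith
    · exact h
  have h2' : 0 < Real.sin (θ (i + 1) - s) := by
    by_contra h; push Not at h; have := mul_nonpos_of_nonneg_of_nonpos hr h; linarith
  have h3' : Real.sin (θ j - s) ≤ 0 := by
    by_contra h; push Not at h; have := mul_pos hr0 h; linarith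
  have h4' : 0 ≤ Real.sin (θ (j + 1) - s) := by
    by_contra h; push Not at h; have := mul_neg_of_pos_of_neg hr0 h; linarith
  have hsi : s = θ i := by
    rcases sect_loc (hnn i hi.le) (hs i hi).1 (hs i hi).2 (hle (i + 1) hi) hs0 hs1 h1'.le h2'.le with
      hA | hA
    swap
    · exfalso; rw [hA.1, hA.2] at h2'; simp at h2'
    by_contra hne
    have hlt : θ i < s := lt_of_le_of_ne hA.1 (fun h => hne h.symm)
    have : Real.sin (θ i - s) < 0 := by
      apply Real.sin_neg_of_neg_of_neg_pi_lt (by linarith)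
      have := (hs i hi).2
      linarith [hA.2]
    linarith
  rcases sect_loc (hnn j hj.le) (hs j hj).1 (hs j hj).2 (hle (j + 1) hj) hs0 hs1 h3' h4' with
    hB | hB
  swap
  · right
    have hj1 : j + 1 = k := by
      by_contra h
      have := hmono k le_rfl (j + 1) (by omega)
      linarith [hB.2]
    have hi0 : i = 0 := by
      by_contra h
      have := hmono i hi.le 0 (by omega)
      rw [h0] at this
      linarith [hB.1]
    rw [hj1, hi0, Nat.mod_self]
  rcases lt_trichotomy j i with h | h | h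
  · right
    have hge : θ i ≤ θ (j + 1) := by rw [← hsi]; exact hB.2
    have : j + 1 = i := by
      by_contra h'
      have := hmono i hi.le (j + 1) (by omega)
      linarith
    rw [this, Nat.mod_eq_of_lt hi]
  · left; exact h
  · exfalso
    have := hmono j hj.le i h
    linarith [hB.1]

end FF79
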