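import Pool.Agent.FF79.Nec
import Pool.Agent.FF79.Suf
import Pool.Agent.FF85.TileCov

/-! FF79/Uniq: two tilings with the same set `I` differ by a motion that takes any given tile of the
first to any given tile of the second. (proofs: helper85) -/

set_option autoImplicit false

open Set Metric
open scoped RealInnerProductSpace

namespace Pool.FF79

open Pool.FF24

section
variable {E : Type*} [NormedAddCommGroup E] [InnerProductSpace ℝ E]

/-- composition of labels: `X (comp μ τ) = X μ ∘ X τ` -/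
def comp (μ τ : ℝ × E) : ℝ × E := (μ.1 * τ.1, μ.1 • τ.2 + μ.2)

theorem X_comp (μ τ : ℝ × E) (z : E) : X (comp μ τ) z = X μ (X τ z) := by
  unfold X comp
  simp only [smul_add, smul_smul, add_assoc]

theorem comp_assoc (μ τ σ : ℝ × E) : comp (comp μ τ) σ = comp μ (comp τ σ) := by
  unfold comp
  simp only [smul_add, smul_smul, add_assoc, mul_assoc]

theorem comp_one (μ : ℝ × E) : comp μ (1, 0) = μ := by
  unfold comp
  simp

theorem comp_nb {P : HPoly E} (g : Glue P) (μ τ : ℝ × E) (u : E) :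
    comp μ (g.nb u τ) = g.nb u (comp μ τ) := by
  unfold comp Glue.nb
  split_ifs with h
  · ext1
    · simp
    · simp only [smul_add, smul_smul]
      abel
  · ext1
    · simp
    · simp only [smul_sub, smul_smul]
      abel

theorem sq_of_sign {μ : ℝ × E} (hμ : μ.1 = 1 ∨ μ.1 = -1) : μ.1 * μ.1 = 1 := by
  rcases hμ with h | h <;> rw [h] <;> norm_num

theorem sign_comp {μ τ : ℝ × E} (hμ : μ.1 = 1 ∨ μ.1 = -1) (hτ : τ.1 = 1 ∨ τ.1 = -1) :
    (comp μ τ).1 = 1 ∨ (comp μ τ).1 = -1 := by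
  unfold comp
  rcases hμ with h | h <;> rcases hτ with h' | h' <;> simp [h, h']

/-- the motion `X μ` as a homeomorphism -/
noncomputable def Xh (μ : ℝ × E) (hμ : μ.1 = 1 ∨ μ.1 = -1) : E ≃ₜ E where
  toFun := X μ
  invFun := crd μ
  left_inv := fun z => crd_X hμ z
  right_inv := fun p => X_crd hμ p
  continuous_toFun := by unfold X; fun_prop
  continuous_invFun := by unfold crd; fun_prop

theorem interior_X {μ : ℝ × E} (hμ : μ.1 = 1 ∨ μ.1 = -1) (A : Set E) :
    interior (X μ '' A) = X μ '' interior A := ((Xh μ hμ).image_interior A).symm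

theorem closure_X {μ : ℝ × E} (hμ : μ.1 = 1 ∨ μ.1 = -1) (A : Set E) :
    closure (X μ '' A) = X μ '' closure A := ((Xh μ hμ).image_closure A).symm

theorem X_inj {μ : ℝ × E} (hμ : μ.1 = 1 ∨ μ.1 = -1) : Function.Injective (X μ) :=
  (Xh μ hμ).injective

theorem comp_image (μ τ : ℝ × E) (A : Set E) : X (comp μ τ) '' A = X μ '' (X τ '' A) := by
  rw [image_image]
  exact image_congr fun z _ => X_comp μ τ z

theorem comp_inj {μ : ℝ × E} (hμ : μ.1 = 1 ∨ μ.1 = -1) {τ σ : ℝ × E} (h : comp μ τ = comp μ σ) :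
    τ = σ := by
  have h1 := congrArg Prod.fst h
  have h2 := congrArg Prod.snd h
  unfold comp at h1 h2
  have hs := sq_of_sign hμ
  ext1
  · have h3 : μ.1 * (μ.1 * τ.1) = μ.1 * (μ.1 * σ.1) := congrArg _ h1
    rwa [← mul_assoc, ← mul_assoc, hs, one_mul, one_mul] at h3
  · have h3 : μ.1 • τ.2 = μ.1 • σ.2 := add_right_cancel h2
    have h4 := congrArg (fun v => μ.1 • v) h3
    simpa only [smul_smul, hs, one_smul] using h4

theorem closure_interior_body (P : HPoly E) : closure (interior P.body) = P.body := by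
  have h1 : (interior P.body).Nonempty := by
    obtain ⟨z, hz⟩ := P.int
    exact ⟨z, FF85.strict_subset_interior P hz⟩
  rw [(FF85.body_convex P).closure_interior_eq_closure_of_nonempty_interior h1,
    (FF85.body_closed P).closure_eq]

theorem interior_body_nonempty (P : HPoly E) : (interior P.body).Nonempty := by
  obtain ⟨z, hz⟩ := P.int
  exact ⟨z, FF85.strict_subset_interior P hz⟩

/-- a bounded nonempty set is not moved into itself by a translation other than `0` -/
theorem tr_self_zero {A : Set E} (hA : A.Nonempty) {r : ℝ} (hb : ∀ z ∈ A, ‖z‖ ≤ r) {v : E}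
    (h : ∀ z ∈ A, z + v ∈ A) : v = 0 := by
  obtain ⟨z, hz⟩ := hA
  have h1 : ∀ n : ℕ, z + (n : ℝ) • v ∈ A := by
    intro n
    induction n with
    | zero => simpa using hz
    | succ n ih =>
      have h2 := h _ ih
      have h3 : z + (n : ℝ) • v + v = z + ((n + 1 : ℕ) : ℝ) • v := by
        push_cast
        rw [add_smul, one_smul, add_assoc]
      rwa [h3] at h2
  by_contra hv
  have hv' : 0 < ‖v‖ := norm_pos_iff.2 hv
  obtain ⟨n, hn⟩ := exists_nat_gt ((r + ‖z‖) / ‖v‖)
  have h4 : r + ‖z‖ < n * ‖v‖ := (div_lt_iff₀ hv').1 hn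
  have h5 := hb _ (h1 n)
  have h6 : ‖(n : ℝ) • v‖ ≤ ‖z + (n : ℝ) • v‖ + ‖z‖ := by
    have h7 := norm_sub_le (z + (n : ℝ) • v) z
    rwa [add_sub_cancel_left] at h7
  rw [norm_smul, Real.norm_of_nonneg (Nat.cast_nonneg n)] at h6
  linarith

/-- the vectors `c u` are determined by `I` -/
theorem glue_agree {P : HPoly E} (g g' : Glue P) (hI : g.I = g'.I) {u : E} (hu : u ∈ P.N)
    (τ : ℝ × E) : g.nb u τ = g'.nb u τ := by
  obtain ⟨r, hr⟩ := P.bdd
  have hb : ∀ z ∈ P.fc u, ‖z‖ ≤ r := fun z hz => hr z hz.1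
  have hne : (P.fc u).Nonempty := fc_nonempty hu
  have key : g.c u = g'.c u := by
    by_cases hI' : u ∈ g.I
    · have h1 : g.c u - g'.c u = 0 := by
        refine tr_self_zero hne hb fun z hz => ?_
        have h2 := g'.inv u hu (hI ▸ hI') z hz
        have h3 := g.inv u hu hI' _ h2
        have h4 : g.c u - (g'.c u - z) = z + (g.c u - g'.c u) := by abel
        rwa [h4] at h3
      exact sub_eq_zero.1 h1
    · have hI'' : u ∉ g'.I := hI ▸ hI'
      have h1 : ∀ z ∈ P.fc (-u), z + g'.c (-u) ∈ P.fc u := by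
        intro z hz
        have h2 := g'.tr (-u) (g'.negN u hu hI'') (g'.negI u hu hI'') z hz
        rwa [neg_neg] at h2
      have h3 : g.c u + g'.c (-u) = 0 := by
        refine tr_self_zero hne hb fun z hz => ?_
        have h4 := h1 _ (g.tr u hu hI' z hz)
        rwa [add_assoc] at h4
      have h5 : g'.c u + g'.c (-u) = 0 := by
        refine tr_self_zero hne hb fun z hz => ?_
        have h4 := h1 _ (g'.tr u hu hI'' z hz)
        rwa [add_assoc] at h4
      have h6 := h3.trans h5.symm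
      exact add_right_cancel h6
  unfold Glue.nb
  rw [hI, key]

variable {P : HPoly E} {I : Set E} {T T' : Set (ℝ × E)}

/-- a moved tiling is a tiling -/
theorem IsTiling.moved (hT : IsTiling P I T) {μ : ℝ × E} (hμ : μ.1 = 1 ∨ μ.1 = -1) :
    IsTiling P I (comp μ '' T) where
  sign := by
    rintro _ ⟨τ, hτ, rfl⟩
    exact sign_comp hμ (hT.sign τ hτ)
  cover := by
    intro x
    obtain ⟨τ, hτ, h⟩ := hT.cover (crd μ x)
    refine ⟨comp μ τ, mem_image_of_mem _ hτ, ?_⟩
    rw [comp_image]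
    exact ⟨crd μ x, h, X_crd hμ x⟩
  disj := by
    rintro _ ⟨τ, hτ, rfl⟩ _ ⟨σ, hσ, rfl⟩ hne
    have h1 : τ ≠ σ := fun h => hne (congrArg _ h)
    have h2 := hT.disj τ hτ σ hσ h1
    rw [comp_image, comp_image, interior_X hμ, interior_X hμ]
    exact (disjoint_image_iff (X_inj hμ)).2 h2
  facet := by
    rintro _ ⟨τ, hτ, rfl⟩ u hu
    obtain ⟨σ, hσ, h1, h2, v, hv, h3⟩ := hT.facet τ hτ u hu
    refine ⟨comp μ σ, mem_image_of_mem _ hσ, fun h => h1 (comp_inj hμ h), ?_, v, hv, ?_⟩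
    · rcases h2 with ⟨a, b⟩ | ⟨a, b⟩
      · left
        refine ⟨a, ?_⟩
        unfold comp
        rw [b]
        ring
      · right
        refine ⟨a, ?_⟩
        unfold comp
        rw [b]
    · rw [comp_image, comp_image, h3]

/-- (an interior point `x` of a tile `ρ ∈ T` lies in a tile `σ ∈ T₀`, which is in the closure of its
interior, so the interiors meet and `ρ = σ`) -/
theorem IsTiling.eq_of_subset (hT : IsTiling P I T) {T₀ : Set (ℝ × E)} (h : T₀ ⊆ T)
    (hc : ∀ x, ∃ τ ∈ T₀, x ∈ X τ '' P.body) : T = T₀ := by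
  refine Subset.antisymm (fun ρ hρ => ?_) h
  obtain ⟨z, hz⟩ := interior_body_nonempty P
  have hx : X ρ z ∈ interior (X ρ '' P.body) := by
    rw [interior_X (hT.sign ρ hρ)]
    exact mem_image_of_mem _ hz
  obtain ⟨σ, hσ, hxσ⟩ := hc (X ρ z)
  have h1 : X ρ z ∈ closure (interior (X σ '' P.body)) := by
    have hs := hT.sign σ (h hσ)
    rw [interior_X hs, closure_X hs, closure_interior_body]
    exact hxσ
  obtain ⟨y, hy1, hy2⟩ := mem_closure_iff.1 h1 _ isOpen_interior hx
  by_cases hne : ρ = σ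
  · rw [hne]
    exact hσ
  · exact absurd hy2 (Set.disjoint_left.1 (hT.disj ρ hρ σ (h hσ) hne) hy1)

end

variable {E : Type*} [NormedAddCommGroup E] [InnerProductSpace ℝ E] [FiniteDimensional ℝ E]
  {P : HPoly E} {I : Set E} {T T' : Set (ℝ × E)}

/-- a tiling is the orbit, moved to any of its tiles -/
theorem IsTiling.eq_orbit (hT : IsTiling P I T) {g : Glue P} (hC : g.Cyc) (hI : g.I = I)
    {τ : ℝ × E} (hτ : τ ∈ T) : T = comp τ '' {σ | g.Orb σ} := by
  obtain ⟨g', hI', hnb⟩ := exists_glue P hT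
  refine hT.eq_of_subset ?_ ?_
  · rintro _ ⟨σ, hσ, rfl⟩
    have hσ' : g.Orb σ := hσ
    clear hσ
    induction hσ' with
    | base => rwa [comp_one]
    | step h hu ih =>
      rw [comp_nb, glue_agree g g' (hI.trans hI'.symm) hu]
      exact hnb _ ih _ hu
  · intro x
    obtain ⟨σ, hσ, h⟩ := orb_cover g hC (crd τ x)
    refine ⟨comp τ σ, mem_image_of_mem _ hσ, ?_⟩
    rw [comp_image]
    exact ⟨crd τ x, h, X_crd (hT.sign τ hτ) x⟩

/-- `μ = τ' ∘ τ⁻¹`; both tilings are the orbit, moved -/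
theorem IsTiling.two (hT : IsTiling P I T) (hT' : IsTiling P I T') {τ τ' : ℝ × E} (hτ : τ ∈ T)
    (hτ' : τ' ∈ T') :
    ∃ μ : ℝ × E, (μ.1 = 1 ∨ μ.1 = -1) ∧ comp μ τ = τ' ∧ T' = comp μ '' T := by
  obtain ⟨g, hI, hC⟩ := nec P hT
  have h1 := hT.eq_orbit hC hI hτ
  have h2 := hT'.eq_orbit hC hI hτ'
  have hs := hT.sign τ hτ
  have hs' := hT'.sign τ' hτ'
  have hinv : comp (τ.1, -(τ.1 • τ.2)) τ = (1, 0) := by
    unfold comp
    ext1
    · exact sq_of_sign hs
    · simp
  have hsign : ((τ.1, -(τ.1 • τ.2)) : ℝ × E).1 = 1 ∨ ((τ.1, -(τ.1 • τ.2)) : ℝ × E).1 = -1 := hs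
  have hμ : comp (comp τ' (τ.1, -(τ.1 • τ.2))) τ = τ' := by
    rw [comp_assoc, hinv, comp_one]
  refine ⟨comp τ' (τ.1, -(τ.1 • τ.2)), sign_comp hs' hsign, hμ, ?_⟩
  rw [h1, h2, image_image]
  refine image_congr fun σ _ => ?_
  rw [← comp_assoc, hμ]

end Pool.FF79
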